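import Pool.Agent.SymMader.Hall

/-!
# Digraphs of bounded independence number

If every independent set has at most `α` vertices, a maximal acyclic set `S` together with shortest
paths joining its (at most `α`) sources is out-connected and dominating, and it can be coloured with
`1 + 2 (α - 1)` colours.
-/

set_option autoImplicit false

namespace Pool.Agent.Hhelper50.Mader

open Pool.Agent.SymMader

variable {V : Type} {A : V → V → Prop}

theorem exists_maximal_acyclic [Finite V] (Y : Set V) :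
    ∃ (S : Set V) (ρ : V → ℕ), S ⊆ Y ∧ (∀ u ∈ S, ∀ v ∈ S, A u v → ρ u < ρ v) ∧
      ∀ y ∈ Y, y ∉ S → (A y y ∨ ∃ o ∈ S, A o y) := by
  classical
  obtain ⟨S, ⟨hSY, ρ, hρ⟩, hmax⟩ := Set.exists_max_image
    {S : Set V | S ⊆ Y ∧ ∃ ρ : V → ℕ, ∀ u ∈ S, ∀ v ∈ S, A u v → ρ u < ρ v}
    (fun S => Set.ncard S) (Set.toFinite _)
    ⟨∅, Set.empty_subset _, fun _ => 0, fun u hu => absurd hu (Set.notMem_empty _)⟩
  refine ⟨S, ρ, hSY, hρ, ?_⟩
  intro y hyY hyS
  by_contra hcon
  push Not at hcon
  obtain ⟨hyy, hno⟩ := hcon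
  have hnew : S ∪ {y} ⊆ Y ∧ ∃ ρ : V → ℕ, ∀ u ∈ S ∪ {y}, ∀ v ∈ S ∪ {y}, A u v → ρ u < ρ v := by
    refine ⟨?_, fun x => if x = y then 0 else ρ x + 1, ?_⟩
    · rintro x (hx | hx)
      · exact hSY hx
      · rw [Set.mem_singleton_iff.mp hx]; exact hyY
    · rintro u (hu | hu) v (hv | hv) huv
      · have e1 : u ≠ y := fun e => hyS (e ▸ hu)
        have e2 : v ≠ y := fun e => hyS (e ▸ hv)
        simp only [e1, e2, if_false]
        have := hρ u hu v hv huv
        omega
      · rw [Set.mem_singleton_iff] at hv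
        subst hv
        exact absurd huv (hno u hu)
      · rw [Set.mem_singleton_iff] at hu
        subst hu
        have e2 : v ≠ u := fun e => hyS (e ▸ hv)
        simp only [e2, if_true, if_false]
        omega
      · rw [Set.mem_singleton_iff] at hu hv
        subst hu; subst hv
        exact absurd huv hyy
  have h1 := hmax (S ∪ {y}) hnew
  have h2 : Set.ncard S < Set.ncard (S ∪ {y}) := by
    refine Set.ncard_lt_ncard ⟨Set.subset_union_left, fun h => hyS (h (Or.inr rfl))⟩ (Set.toFinite _)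
  omega

/-- every vertex of an acyclic set is reachable from a source of the set -/
theorem exists_source {S : Set V} {ρ : V → ℕ} (hρ : ∀ u ∈ S, ∀ v ∈ S, A u v → ρ u < ρ v) :
    ∀ (m : ℕ) (a : V), a ∈ S → ρ a ≤ m → ∃ s ∈ S, (∀ b ∈ S, ¬ A b s) ∧
      Relation.ReflTransGen (fun x y => A x y ∧ y ∈ S) s a := by
  intro m
  induction m with
  | zero =>
    intro a ha hm
    refine ⟨a, ha, fun b hb hba => ?_, Relation.ReflTransGen.refl⟩
    have := hρ b hb a ha hba
    omega
  | succ m ih =>
    intro a ha hm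
    by_cases h : ∃ b ∈ S, A b a
    · obtain ⟨b, hb, hba⟩ := h
      have h1 := hρ b hb a ha hba
      obtain ⟨s, hs, hs', hsb⟩ := ih b hb (by omega)
      exact ⟨s, hs, hs', hsb.tail ⟨hba, ha⟩⟩
    · push Not at h
      exact ⟨a, ha, h, Relation.ReflTransGen.refl⟩

/-- walks inside `Y` as iterated relation -/
def DW (A : V → V → Prop) (Y : Set V) (r : V) (x : V) : Set ℕ := {L | ∃ w : ℕ → V, w 0 = r ∧ w L = x ∧
  ∀ i < L, A (w i) (w (i + 1)) ∧ w (i + 1) ∈ Y}

noncomputable def dist (A : V → V → Prop) (Y : Set V) (r : V) (x : V) : ℕ := sInf (DW A Y r x)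

theorem DW.nonempty {Y : Set V} {r x : V}
    (h : Relation.ReflTransGen (fun a b => A a b ∧ b ∈ Y) r x) : (DW A Y r x).Nonempty := by
  induction h with
  | refl => exact ⟨0, fun _ => r, rfl, rfl, fun i hi => absurd hi (by omega)⟩
  | @tail b c _ h ih =>
    obtain ⟨L, w, w0, wL, hw⟩ := ih
    refine ⟨L + 1, fun i => if i ≤ L then w i else c, by simp [w0], by simp, ?_⟩
    intro i hi
    by_cases h1 : i + 1 ≤ L
    · have h2 : i ≤ L := by omega
      simp only [h1, h2, if_true]; exact hw i (by omega)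
    · have h2 : i ≤ L := by omega
      have h3 : i = L := by omega
      simp only [h1, h2, if_true, if_false]
      rw [h3, wL]; exact h

theorem dist_step {Y : Set V} {r x y : V}
    (h : Relation.ReflTransGen (fun a b => A a b ∧ b ∈ Y) r x) (hxy : A x y) (hy : y ∈ Y) :
    dist A Y r y ≤ dist A Y r x + 1 := by
  obtain ⟨w, w0, wL, hw⟩ := Nat.sInf_mem (DW.nonempty h)
  refine Nat.sInf_le ⟨fun i => if i ≤ dist A Y r x then w i else y, by simp [w0], by simp, ?_⟩
  intro i hi
  by_cases h1 : i + 1 ≤ dist A Y r x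
  · have h2 : i ≤ dist A Y r x := by omega
    simp only [h1, h2, if_true]; exact hw i h1
  · have h2 : i ≤ dist A Y r x := by omega
    have h3 : i = dist A Y r x := by omega
    simp only [h1, h2, if_true, if_false]
    rw [h3]
    have : w (dist A Y r x) = x := wL
    rw [this]; exact ⟨hxy, hy⟩

/-- a shortest walk -/
theorem exists_shortest {Y : Set V} {r s : V}
    (h : Relation.ReflTransGen (fun a b => A a b ∧ b ∈ Y) r s) :
    ∃ w : ℕ → V, w 0 = r ∧ w (dist A Y r s) = s ∧
      (∀ i < dist A Y r s, A (w i) (w (i + 1)) ∧ w (i + 1) ∈ Y) ∧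
      ∀ i ≤ dist A Y r s, dist A Y r (w i) = i := by
  obtain ⟨w, w0, wL, hw⟩ := Nat.sInf_mem (DW.nonempty h)
  refine ⟨w, w0, wL, hw, ?_⟩
  intro i hi
  have h1 : dist A Y r (w i) ≤ i := Nat.sInf_le ⟨w, w0, rfl, fun k hk => hw k (by
    have : k < dist A Y r s := by omega
    exact this)⟩
  by_contra hne
  have hlt : dist A Y r (w i) < i := by omega
  have hne' : (DW A Y r (w i)).Nonempty := ⟨i, w, w0, rfl, fun k hk => hw k (by
    have : k < dist A Y r s := by omega
    exact this)⟩
  obtain ⟨u, u0, uL, hu⟩ := Nat.sInf_mem hne'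
  set k := dist A Y r (w i) with hk
  have hk' : sInf (DW A Y r (w i)) = k := rfl
  rw [hk'] at uL hu
  have hle : dist A Y r s ≤ k + (dist A Y r s - i) := by
    refine Nat.sInf_le ⟨fun j => if j ≤ k then u j else w (j - k + i), by simp [u0], ?_, ?_⟩
    · by_cases h0 : dist A Y r s - i = 0
      · have e : dist A Y r s = i := by omega
        have : k + (dist A Y r s - i) ≤ k := by omega
        simp only [this, if_true]
        have e2 : k + (dist A Y r s - i) = k := by omega
        rw [e2, uL, ← wL]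
        show w i = w (dist A Y r s)
        rw [e]
      · have : ¬ k + (dist A Y r s - i) ≤ k := by omega
        simp only [this, if_false]
        have e2 : k + (dist A Y r s - i) - k + i = dist A Y r s := by omega
        rw [e2]; exact wL
    · intro j hj
      by_cases h1 : j + 1 ≤ k
      · have h2 : j ≤ k := by omega
        simp only [h1, h2, if_true]; exact hu j (by omega)
      · by_cases h2 : j ≤ k
        · have h3 : j = k := by omega
          simp only [h1, h2, if_true, if_false]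
          have e3 : j + 1 - k + i = i + 1 := by omega
          rw [e3, h3, uL]
          exact hw i (by
            have : i < dist A Y r s := by omega
            exact this)
        · simp only [h1, h2, if_false]
          have e3 : j + 1 - k + i = (j - k + i) + 1 := by omega
          rw [e3]
          exact hw _ (by
            have : j - k + i < dist A Y r s := by omega
            exact this)
  omega

theorem neck_of_alpha [Finite V] {q α : ℕ} (hq : 1 ≤ q) (hloop : ∀ v, ¬ A v v)
    (hind : ∀ T : Finset V, (∀ u ∈ T, ∀ v ∈ T, ¬ A u v) → T.card ≤ α)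
    (hcol : ¬ Col A Set.univ (ZMod (q + 1) ⊕ Option (Bool × Fin (α - 1)))) : HasNeck A (q + 2) := by
  classical
  by_contra hN
  obtain ⟨Y, -, hY, hYmin⟩ := exists_critical hcol
  -- strong
  have hstrong : ∀ x ∈ Y, ∀ y ∈ Y, Relation.ReflTransGen (fun a b => A a b ∧ b ∈ Y) x y := by
    intro x hx y hy
    by_contra hcon
    set R : Set V := {z | z ∈ Y ∧ Relation.ReflTransGen (fun a b => A a b ∧ b ∈ Y) x z} with hR
    have hyR : y ∉ R := fun h => hcon h.2
    have hxR : x ∈ R := ⟨hx, Relation.ReflTransGen.refl⟩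
    refine hY (Col.glue (R := R) ?_ ?_ ?_)
    · rintro a ⟨ha, ha'⟩ b hb hab
      exact ⟨hb, ha'.tail ⟨hab, hb⟩⟩
    · exact hYmin _ ⟨Set.inter_subset_left, fun hsub => hyR (hsub hy).2⟩
    · exact hYmin _ ⟨Set.sdiff_subset, fun hsub => (hsub hx).2 hxR⟩
  obtain ⟨S, ρ, hSY, hρ, hdom⟩ := exists_maximal_acyclic (A := A) Y
  have hYne : Y.Nonempty := by
    by_contra hcon
    rw [Set.not_nonempty_iff_eq_empty] at hcon
    subst hcon
    refine hY ⟨fun _ => Sum.inl 0, ?_⟩
    intro x hx
    obtain ⟨y, hy, _⟩ := Relation.TransGen.head'_iff.1 hx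
    exact hy.1
  obtain ⟨y0, hy0⟩ := hYne
  have hSne : ∃ a, a ∈ S := by
    by_cases h : y0 ∈ S
    · exact ⟨y0, h⟩
    · rcases hdom y0 hy0 h with h | ⟨o, ho, _⟩
      · exact absurd h (hloop _)
      · exact ⟨o, ho⟩
  obtain ⟨a0, ha0⟩ := hSne
  obtain ⟨r, hrS, hrs, -⟩ := exists_source hρ (ρ a0) a0 ha0 le_rfl
  have hrY : r ∈ Y := hSY hrS
  -- the other sources
  set T : Finset V := (Set.toFinite {s | s ∈ S ∧ ∀ b ∈ S, ¬ A b s}).toFinset with hT
  have hTmem : ∀ s, s ∈ T ↔ s ∈ S ∧ ∀ b ∈ S, ¬ A b s := by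
    intro s; simp [hT]
  have hTcard : T.card ≤ α := hind T (fun u hu v hv => ((hTmem v).1 hv).2 u ((hTmem u).1 hu).1)
  have hrT : r ∈ T := (hTmem r).2 ⟨hrS, hrs⟩
  have hT'card : (T.erase r).card ≤ α - 1 := by
    rw [Finset.card_erase_of_mem hrT]; omega
  obtain ⟨e⟩ : Nonempty ((T.erase r : Finset V) ↪ Fin (α - 1)) := by
    refine Function.Embedding.nonempty_of_card_le ?_
    rw [Fintype.card_coe, Fintype.card_fin]; exact hT'card
  -- shortest walks
  have hw : ∀ s : V, ∃ w : ℕ → V, s ∈ Y → (w 0 = r ∧ w (dist A Y r s) = s ∧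
      (∀ i < dist A Y r s, A (w i) (w (i + 1)) ∧ w (i + 1) ∈ Y) ∧
      ∀ i ≤ dist A Y r s, dist A Y r (w i) = i) := by
    intro s
    by_cases hs : s ∈ Y
    · obtain ⟨w, h⟩ := exists_shortest (hstrong r hrY s hs)
      exact ⟨w, fun _ => h⟩
    · exact ⟨fun _ => r, fun h => absurd h hs⟩
  choose W hW using hw
  set P : Set V := {v | v ∉ S ∧ ∃ s ∈ T.erase r, ∃ i ≤ dist A Y r s, v = W s i} with hP
  have hTY : ∀ s ∈ T.erase r, s ∈ Y := fun s hs => hSY ((hTmem s).1 (Finset.mem_of_mem_erase hs)).1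
  set O : Set V := S ∪ P with hO
  have hPY : P ⊆ Y := by
    rintro v ⟨_, s, hs, i, hi, rfl⟩
    obtain ⟨h0, _, h2, _⟩ := hW s (hTY s hs)
    rcases Nat.eq_zero_or_pos i with rfl | hi0
    · rw [h0]; exact hrY
    · obtain ⟨j, rfl⟩ : ∃ j, i = j + 1 := ⟨i - 1, by omega⟩
      exact (h2 j (by omega)).2
  have hWO : ∀ s ∈ T.erase r, ∀ i ≤ dist A Y r s, W s i ∈ O := by
    intro s hs i hi
    by_cases h : W s i ∈ S
    · exact Or.inl h
    · exact Or.inr ⟨h, s, hs, i, hi, rfl⟩
  have hWconn : ∀ s ∈ T.erase r, ∀ i ≤ dist A Y r s,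
      Relation.ReflTransGen (fun a b => A a b ∧ b ∈ O) r (W s i) := by
    intro s hs i
    obtain ⟨h0, _, h2, _⟩ := hW s (hTY s hs)
    induction i with
    | zero => intro _; rw [h0]
    | succ i ih =>
      intro hi
      exact (ih (by omega)).tail ⟨(h2 i (by omega)).1, hWO s hs (i + 1) hi⟩
  have hconn : ∀ x ∈ O, Relation.ReflTransGen (fun a b => A a b ∧ b ∈ O) r x := by
    rintro x (hx | ⟨_, s, hs, i, hi, rfl⟩)
    · obtain ⟨s, hs, hs', hsx⟩ := exists_source hρ (ρ x) x hx le_rfl
      have h1 : Relation.ReflTransGen (fun a b => A a b ∧ b ∈ O) s x :=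
        Relation.ReflTransGen.mono (fun a b h => ⟨h.1, Or.inl h.2⟩) _ _ hsx
      by_cases e : s = r
      · rw [← e]; exact h1
      · have hsT : s ∈ T.erase r := Finset.mem_erase.2 ⟨e, (hTmem s).2 ⟨hs, hs'⟩⟩
        have h2 := hWconn s hsT _ le_rfl
        rw [(hW s (hTY s hsT)).2.1] at h2
        exact h2.trans h1
    · exact hWconn s hs i hi
  obtain ⟨f, hf⟩ : Col A (Y \ O) (ZMod (q + 1)) := by
    refine col_of_dominated hq hloop hN (O := O) (r := r) (Or.inl hrS) (fun x hx => hx.2) hconn
      ?_ (fun x hx => ?_)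
    · intro x hx
      rcases hdom x hx.1 (fun h => hx.2 (Or.inl h)) with h | ⟨o, ho, hox⟩
      · exact absurd h (hloop _)
      · exact ⟨o, Or.inl ho, hox⟩
    · exact Relation.ReflTransGen.mono (fun a b h => h.1) _ _ (hstrong x hx.1 r hrY)
  -- the source of a vertex of P
  have hsrc : ∀ v : V, ∃ s : V, v ∈ P → s ∈ T.erase r ∧ v = W s (dist A Y r v) := by
    intro v
    by_cases hv : v ∈ P
    · obtain ⟨_, s, hs, i, hi, hvi⟩ := hv
      refine ⟨s, fun _ => ⟨hs, ?_⟩⟩
      have := (hW s (hTY s hs)).2.2.2 i hi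
      rw [hvi, this]
    · exact ⟨v, fun h => absurd h hv⟩
  choose σ hσ using hsrc
  obtain ⟨c, hc⟩ : ∃ c : V → ZMod (q + 1) ⊕ Option (Bool × Fin (α - 1)), c = fun v =>
      if v ∈ S then Sum.inr none else
        if hv : v ∈ P then Sum.inr (some (decide (dist A Y r v % 2 = 0), e ⟨σ v, (hσ v hv).1⟩))
        else Sum.inl (f v) := ⟨_, rfl⟩
  have cS : ∀ v, v ∈ S → c v = Sum.inr none := by intro v hv; simp [hc, hv]
  have cP : ∀ v (hv : v ∈ P), c v = Sum.inr (some (decide (dist A Y r v % 2 = 0),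
      e ⟨σ v, (hσ v hv).1⟩)) := by
    intro v hv
    have h1 : v ∉ S := hv.1
    simp [hc, hv, h1]
  have cX : ∀ v, v ∉ O → c v = Sum.inl (f v) := by
    intro v hv
    have h1 : v ∉ S := fun h => hv (Or.inl h)
    have h2 : v ∉ P := fun h => hv (Or.inr h)
    simp [hc, h1, h2]
  refine hY ⟨c, ?_⟩
  intro x hx
  by_cases hxO : x ∈ O
  · rcases hxO with hxS | hxP
    · have key : ∀ y, Relation.TransGen (Mono A Y c ∅) x y → y ∈ S ∧ ρ x < ρ y := by
        intro y hy
        have hstep : ∀ a b, a ∈ S → Mono A Y c ∅ a b → b ∈ S ∧ ρ a < ρ b := by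
          rintro a b ha ⟨_, _, _, _, a5, a6⟩
          have hb : b ∈ S := by
            by_contra hb
            by_cases hbP : b ∈ P
            · rw [cS a ha, cP b hbP] at a6; simp at a6
            · rw [cS a ha, cX b (fun h => h.elim hb hbP)] at a6; simp at a6
          exact ⟨hb, hρ a ha b hb a5⟩
        induction hy with
        | single h => exact hstep _ _ hxS h
        | tail _ h ih =>
          have := hstep _ _ ih.1 h
          exact ⟨this.1, ih.2.trans this.2⟩
      exact absurd (key x hx).2 (lt_irrefl _)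
    · have hstep : ∀ a b, a ∈ P → Mono A Y c ∅ a b → b ∈ P ∧ dist A Y r b < dist A Y r a := by
        rintro a b ha ⟨a1, a2, _, _, a5, a6⟩
        have hb : b ∈ P := by
          by_contra hb
          by_cases hbS : b ∈ S
          · rw [cS b hbS, cP a ha] at a6; simp at a6
          · rw [cP a ha, cX b (fun h => h.elim hbS hb)] at a6; simp at a6
        refine ⟨hb, ?_⟩
        rw [cP a ha, cP b hb] at a6
        have h1 := Option.some.inj (Sum.inr.inj a6)
        have h2 := (Prod.mk.inj h1).1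
        have h3 := (Prod.mk.inj h1).2
        have h4 : σ a = σ b := congrArg Subtype.val (e.injective h3)
        have h5 : (dist A Y r a % 2 = 0) ↔ (dist A Y r b % 2 = 0) := by simpa using h2
        have h6 : dist A Y r b ≤ dist A Y r a + 1 := dist_step (hstrong r hrY a a1) a5 a2
        have h7 : dist A Y r b ≠ dist A Y r a := by
          intro h7
          have e1 := (hσ a ha).2
          have e2 := (hσ b hb).2
          rw [h7, ← h4, ← e1] at e2
          rw [e2] at a5
          exact hloop _ a5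
        omega
      have key : ∀ y, Relation.TransGen (Mono A Y c ∅) x y → y ∈ P ∧
          dist A Y r y < dist A Y r x := by
        intro y hy
        induction hy with
        | single h => exact hstep _ _ hxP h
        | tail _ h ih =>
          have := hstep _ _ ih.1 h
          exact ⟨this.1, this.2.trans ih.2⟩
      exact absurd (key x hx).2 (lt_irrefl _)
  · have hstep : ∀ a b, a ∉ O → Mono A Y c ∅ a b → b ∉ O ∧ Mono A (Y \ O) f ∅ a b := by
      rintro a b ha ⟨a1, a2, a3, a4, a5, a6⟩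
      have hb : b ∉ O := by
        intro hb
        rcases hb with hb | hb
        · rw [cX a ha, cS b hb] at a6; simp at a6
        · rw [cX a ha, cP b hb] at a6; simp at a6
      refine ⟨hb, ⟨a1, ha⟩, ⟨a2, hb⟩, a3, a4, a5, ?_⟩
      rw [cX a ha, cX b hb] at a6
      exact Sum.inl.inj a6
    have key : ∀ y, Relation.TransGen (Mono A Y c ∅) x y → y ∉ O ∧
        Relation.TransGen (Mono A (Y \ O) f ∅) x y := by
      intro y hy
      induction hy with
      | single h =>
        have := hstep _ _ hxO h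
        exact ⟨this.1, Relation.TransGen.single this.2⟩
      | tail _ h ih =>
        have := hstep _ _ ih.1 h
        exact ⟨this.1, ih.2.tail this.2⟩
    exact hf x (key x hx).2

end Pool.Agent.Hhelper50.Mader
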