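import Mathlib

/-!
# Walks, reachability inside a set, and the subdivision of the bioriented cycle
-/

set_option autoImplicit false

namespace Pool.Agent.Hhelper50.Mader

variable {V : Type}

/-- `w` is a walk of length `L` from `x` to `y` all of whose inner vertices are in `S`. -/
def IsWalk (A : V → V → Prop) (S : Set V) (x y : V) (L : ℕ) (w : ℕ → V) : Prop :=
  1 ≤ L ∧ w 0 = x ∧ w L = y ∧ (∀ i, i < L → A (w i) (w (i + 1))) ∧ ∀ i, 0 < i → i < L → w i ∈ S

/-- `y` is reachable from `x` by a walk of positive length with inner vertices in `S`. -/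
def Reach (A : V → V → Prop) (S : Set V) (x y : V) : Prop := ∃ L w, IsWalk A S x y L w

theorem Reach.arc {A : V → V → Prop} {S : Set V} {x y : V} (h : A x y) : Reach A S x y := by
  refine ⟨1, fun i => if i = 0 then x else y, le_rfl, by simp, by simp, ?_, ?_⟩
  · intro i hi
    obtain rfl : i = 0 := by omega
    simpa using h
  · intro i h0 h1; omega

theorem Reach.mono {A : V → V → Prop} {S T : Set V} {x y : V} (hST : S ⊆ T)
    (h : Reach A S x y) : Reach A T x y := by
  obtain ⟨L, w, h1, h2, h3, h4, h5⟩ := h
  exact ⟨L, w, h1, h2, h3, h4, fun i a b => hST (h5 i a b)⟩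

theorem Reach.trans {A : V → V → Prop} {S : Set V} {x y z : V}
    (h : Reach A S x y) (hy : y ∈ S) (h' : Reach A S y z) : Reach A S x z := by
  obtain ⟨L, w, h1, h2, h3, h4, h5⟩ := h
  obtain ⟨L', w', h1', h2', h3', h4', h5'⟩ := h'
  refine ⟨L + L', fun i => if i < L then w i else w' (i - L), by omega, ?_, ?_, ?_, ?_⟩
  · have : 0 < L := h1
    simp [this, h2]
  · simp [h3']
  · intro i hi
    by_cases h : i + 1 < L
    · have h0 : i < L := by omega
      simp only [h0, h, if_true]
      exact h4 i h0
    · by_cases h0 : i < L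
      · have e : i + 1 = L := by omega
        have e2 : i + 1 - L = 0 := by omega
        simp only [h0, h, if_true, if_false, e2, h2']
        have := h4 i h0
        rw [e, h3] at this
        exact this
      · simp only [h0, h, if_false]
        have e2 : i + 1 - L = (i - L) + 1 := by omega
        rw [e2]
        exact h4' _ (by omega)
  · intro i h0 hi
    by_cases h : i < L
    · simp only [h, if_true]; exact h5 i h0 h
    · simp only [h, if_false]
      by_cases e : i = L
      · subst e; simpa [h2'] using hy
      · exact h5' _ (by omega) (by omega)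

theorem Reach.trans' {A : V → V → Prop} {S T U : Set V} {x y z : V}
    (h : Reach A S x y) (h' : Reach A T y z) (hS : S ⊆ U) (hy : y ∈ U) (hT : T ⊆ U) :
    Reach A U x z :=
  (h.mono hS).trans hy (h'.mono hT)

/-- A shortest walk has no repetitions except possibly at the two ends. -/
theorem Reach.exists_simple {A : V → V → Prop} {S : Set V} {x y : V} (h : Reach A S x y) :
    ∃ L w, IsWalk A S x y L w ∧
      ∀ i j, i < j → j ≤ L → ¬ (i = 0 ∧ j = L) → w i ≠ w j := by
  classical
  have hex : ∃ L, ∃ w, IsWalk A S x y L w := h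
  obtain ⟨w, hw⟩ := Nat.find_spec hex
  set L := Nat.find hex with hL
  refine ⟨L, w, hw, ?_⟩
  intro i j hij hjL hne heq
  obtain ⟨h1, h2, h3, h4, h5⟩ := hw
  have hlt : L - (j - i) < L := by omega
  refine Nat.find_min hex hlt ⟨fun k => if k ≤ i then w k else w (k + (j - i)), ?_, ?_, ?_, ?_, ?_⟩
  · omega
  · simp [h2]
  · by_cases hc : L - (j - i) ≤ i
    · have e1 : j = L := by omega
      have e2 : L - (j - i) = i := by omega
      simp only [e2, le_refl, if_true]
      rw [heq, e1, h3]
    · simp only [hc, if_false]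
      have : L - (j - i) + (j - i) = L := by omega
      rw [this, h3]
  · intro k hk
    by_cases hc : k + 1 ≤ i
    · have hc' : k ≤ i := by omega
      simp only [hc, hc', if_true]
      exact h4 k (by omega)
    · by_cases hc' : k ≤ i
      · have e : k = i := by omega
        subst e
        simp only [hc, le_refl, if_true, if_false]
        rw [heq]
        have e3 : k + 1 + (j - k) = j + 1 := by omega
        rw [e3]
        exact h4 j (by omega)
      · simp only [hc, hc', if_false]
        have e3 : k + 1 + (j - i) = (k + (j - i)) + 1 := by omega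
        rw [e3]
        exact h4 _ (by omega)
  · intro k h0 hk
    by_cases hc : k ≤ i
    · simp only [hc, if_true]; exact h5 k h0 (by omega)
    · simp only [hc, if_false]; exact h5 _ (by omega) (by omega)

/-- The conclusion of the frozen statement: `A` contains a subdivision of the bioriented cycle of
length `ℓ`. -/
def HasNeck (A : V → V → Prop) (ℓ : ℕ) : Prop :=
  ∃ (b : ZMod ℓ → V) (L : ZMod ℓ → Bool → ℕ) (P : ZMod ℓ → Bool → ℕ → V),
    Function.Injective b ∧
    (∀ i d, 1 ≤ L i d) ∧
    (∀ i, P i false 0 = b i ∧ P i false (L i false) = b (i + 1) ∧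
          P i true 0 = b (i + 1) ∧ P i true (L i true) = b i) ∧
    (∀ i d j, j < L i d → A (P i d j) (P i d (j + 1))) ∧
    (∀ i d j, 0 < j → j < L i d → ∀ m, P i d j ≠ b m) ∧
    (∀ i d j i' d' j', 0 < j → j < L i d → 0 < j' → j' < L i' d' →
        P i d j = P i' d' j' → i = i' ∧ d = d' ∧ j = j')

theorem assemble {A : V → V → Prop} {ℓ : ℕ} (b : ZMod ℓ → V) (hb : Function.Injective b)
    (S : ZMod ℓ → Bool → Set V)
    (hS : ∀ i d i' d' x, x ∈ S i d → x ∈ S i' d' → i = i' ∧ d = d')
    (hSb : ∀ i d m, b m ∉ S i d)
    (hf : ∀ i, Reach A (S i false) (b i) (b (i + 1)))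
    (ht : ∀ i, Reach A (S i true) (b (i + 1)) (b i)) : HasNeck A ℓ := by
  classical
  have hR : ∀ i d, Reach A (S i d) (if d then b (i + 1) else b i) (if d then b i else b (i + 1)) := by
    intro i d
    cases d
    · simpa using hf i
    · simpa using ht i
  choose L P hW hinj using fun i d => (hR i d).exists_simple
  refine ⟨b, L, P, hb, fun i d => (hW i d).1, ?_, fun i d j hj => (hW i d).2.2.2.1 j hj, ?_, ?_⟩
  · intro i
    have h0 := hW i false
    have h1 := hW i true
    simp only [Bool.false_eq_true, if_false, if_true] at h0 h1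
    exact ⟨h0.2.1, h0.2.2.1, h1.2.1, h1.2.2.1⟩
  · intro i d j h0 hj m he
    have := (hW i d).2.2.2.2 j h0 hj
    rw [he] at this
    exact hSb _ _ _ this
  · intro i d j i' d' j' h0 hj h0' hj' he
    have m1 := (hW i d).2.2.2.2 j h0 hj
    have m2 := (hW i' d').2.2.2.2 j' h0' hj'
    rw [← he] at m2
    obtain ⟨rfl, rfl⟩ := hS _ _ _ _ _ m1 m2
    refine ⟨rfl, rfl, ?_⟩
    rcases lt_trichotomy j j' with h | h | h
    · exact absurd he (hinj i d j j' h (by omega) (by omega))
    · exact h
    · exact absurd he.symm (hinj i d j' j h (by omega) (by omega))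

end Pool.Agent.Hhelper50.Mader
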