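import Pool.Agent.Hhelper50.Mader.Place

/-!
# Breadth first search and the main theorem
-/

set_option autoImplicit false

namespace Pool.Agent.Hhelper50.Mader

variable {V : Type} {A : V → V → Prop}

/-- `X` has a partition into acyclic sets indexed by `C`. -/
def Col (A : V → V → Prop) (X : Set V) (C : Type) : Prop := ∃ f : V → C, Good A X f ∅

theorem main_lemma [Finite V] {X : Set V} {h : V} (hh : h ∈ X) {q : ℕ} (hq : 1 ≤ q)
    (hloop : ∀ v, ¬ A v v) (hO : ∀ x ∈ X, x ≠ h → Reach A Xᶜ h x)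
    (hX : ¬ Col A X (ZMod (q + 1))) (hXh : Col A (X \ {h}) (ZMod (q + 1))) :
    HasNeck A (q + 2) := by
  classical
  by_contra hN
  obtain ⟨f0, hf0⟩ := hXh
  have H : Ladder A X h 0 (fun _ _ => h) (fun _ => 1) := by
    refine ⟨fun _ _ => le_rfl, rfl, rfl, ?_, ?_, ?_, ?_, fun _ _ _ _ => hh⟩
    · intro i hi; omega
    · intro i hi; omega
    · intro i hi; omega
    · intro i hi s hs i' hi' s' hs' _
      omega
  have hG : Good A X (Function.update f0 h 0) {x | ∃ k ≤ 0, x = (fun _ _ => h : ℕ → ℕ → V) k 0} := by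
    intro x hx
    refine hf0 x (Relation.TransGen.mono ?_ x x hx)
    rintro a b ⟨a1, a2, a3, a4, a5, a6⟩
    have ha : a ≠ h := fun he => a3 ⟨0, le_rfl, he⟩
    have hb : b ≠ h := fun he => a4 ⟨0, le_rfl, he⟩
    rw [Function.update_of_ne ha, Function.update_of_ne hb] at a6
    exact ⟨⟨a1, ha⟩, ⟨a2, hb⟩, Set.notMem_empty _, Set.notMem_empty _, a5, a6⟩
  obtain ⟨f', _, g', _⟩ := place (A := A) (X := X) hO hq hloop hN (Nat.card V) 0 _ _ _ H
    (by omega) (by
      intro i hi s _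
      obtain rfl : i = 0 := by omega
      simp) hG
  refine hX ⟨f', ?_⟩
  intro x hx
  refine g' x (Relation.TransGen.mono ?_ x x hx)
  rintro a b ⟨a1, a2, a3, a4, a5, a6⟩
  refine ⟨a1, a2, ?_, ?_, a5, a6⟩ <;> rintro ⟨k, hk, _⟩ <;> omega

/-- Gluing along an initial/terminal part. -/
theorem Col.glue {C : Type} {Y R : Set V} (hR : ∀ x ∈ R, ∀ y ∈ Y, A x y → y ∈ R)
    (h1 : Col A (Y ∩ R) C) (h2 : Col A (Y \ R) C) : Col A Y C := by
  classical
  obtain ⟨f1, hf1⟩ := h1
  obtain ⟨f2, hf2⟩ := h2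
  refine ⟨fun x => if x ∈ R then f1 x else f2 x, ?_⟩
  set f : V → C := fun x => if x ∈ R then f1 x else f2 x with hf
  have k1 : ∀ x y, Relation.TransGen (Mono A Y f ∅) x y → x ∈ R →
      y ∈ R ∧ Relation.TransGen (Mono A (Y ∩ R) f1 ∅) x y := by
    intro x y hxy hx
    induction hxy with
    | single hab =>
      have hy := hR _ hx _ hab.2.1 hab.2.2.2.2.1
      refine ⟨hy, Relation.TransGen.single ⟨⟨hab.1, hx⟩, ⟨hab.2.1, hy⟩, hab.2.2.1, hab.2.2.2.1,
        hab.2.2.2.2.1, ?_⟩⟩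
      have := hab.2.2.2.2.2
      simpa [hf, hx, hy] using this
    | tail hab hbc ih =>
      obtain ⟨hb, ih⟩ := ih
      have hy := hR _ hb _ hbc.2.1 hbc.2.2.2.2.1
      refine ⟨hy, Relation.TransGen.tail ih ⟨⟨hbc.1, hb⟩, ⟨hbc.2.1, hy⟩, hbc.2.2.1, hbc.2.2.2.1,
        hbc.2.2.2.2.1, ?_⟩⟩
      have := hbc.2.2.2.2.2
      simpa [hf, hb, hy] using this
  have k2 : ∀ x y, Relation.TransGen (Mono A Y f ∅) x y → y ∉ R →
      x ∉ R ∧ Relation.TransGen (Mono A (Y \ R) f2 ∅) x y := by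
    intro x y hxy
    induction hxy with
    | single hab =>
      intro hy
      have hx : x ∉ R := fun hx => hy (hR _ hx _ hab.2.1 hab.2.2.2.2.1)
      refine ⟨hx, Relation.TransGen.single ⟨⟨hab.1, hx⟩, ⟨hab.2.1, hy⟩, hab.2.2.1, hab.2.2.2.1,
        hab.2.2.2.2.1, ?_⟩⟩
      have := hab.2.2.2.2.2
      simpa [hf, hx, hy] using this
    | tail hab hbc ih =>
      rename_i b c
      intro hy
      have hb : b ∉ R := fun hx => hy (hR _ hx _ hbc.2.1 hbc.2.2.2.2.1)
      obtain ⟨hx, ih⟩ := ih hb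
      refine ⟨hx, Relation.TransGen.tail ih ⟨⟨hbc.1, hb⟩, ⟨hbc.2.1, hy⟩, hbc.2.2.1, hbc.2.2.2.1,
        hbc.2.2.2.2.1, ?_⟩⟩
      have := hbc.2.2.2.2.2
      simpa [hf, hb, hy] using this
  intro x hx
  by_cases hxR : x ∈ R
  · exact hf1 x (k1 x x hx hxR).2
  · exact hf2 x (k2 x x hx hxR).2

/-- Colouring the levels of a breadth first search with two disjoint palettes. -/
theorem Col.levels {C : Type} {Y : Set V} (d : V → ℕ)
    (hd : ∀ x ∈ Y, ∀ y ∈ Y, A x y → d y ≤ d x + 1)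
    (h : ∀ i, Col A {x | x ∈ Y ∧ d x = i} C) : Col A Y (C × Bool) := by
  classical
  choose f hf using h
  refine ⟨fun x => (f (d x) x, decide (d x % 2 = 0)), ?_⟩
  set g : V → C × Bool := fun x => (f (d x) x, decide (d x % 2 = 0)) with hg
  have step : ∀ x y, Mono A Y g ∅ x y → d y ≤ d x := by
    rintro x y ⟨a1, a2, a3, a4, a5, a6⟩
    have h1 := hd x a1 y a2 a5
    have h2 : decide (d x % 2 = 0) = decide (d y % 2 = 0) := (Prod.mk.inj a6).2
    have h3 : (d x % 2 = 0) ↔ (d y % 2 = 0) := by simpa using h2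
    omega
  have mon : ∀ x y, Relation.TransGen (Mono A Y g ∅) x y → d y ≤ d x := by
    intro x y hxy
    induction hxy with
    | single hab => exact step _ _ hab
    | tail hab hbc ih => exact (step _ _ hbc).trans ih
  have key : ∀ x y, Relation.TransGen (Mono A Y g ∅) x y → d x ≤ d y →
      Relation.TransGen (Mono A {z | z ∈ Y ∧ d z = d x} (f (d x)) ∅) x y := by
    intro x y hxy
    induction hxy with
    | single hab =>
      intro hle
      have h1 := step _ _ hab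
      refine Relation.TransGen.single ⟨⟨hab.1, rfl⟩, ⟨hab.2.1, by omega⟩, hab.2.2.1, hab.2.2.2.1,
        hab.2.2.2.2.1, ?_⟩
      have := (Prod.mk.inj hab.2.2.2.2.2).1
      rename_i b
      have e : d b = d x := by omega
      rw [e] at this
      exact this
    | tail hab hbc ih =>
      rename_i b c
      intro hle
      have h1 := step _ _ hbc
      have h2 := mon _ _ hab
      have e1 : d b = d x := by omega
      have e2 : d c = d x := by omega
      refine Relation.TransGen.tail (ih (by omega)) ⟨⟨hbc.1, e1⟩, ⟨hbc.2.1, e2⟩, hbc.2.2.1,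
        hbc.2.2.2.1, hbc.2.2.2.2.1, ?_⟩
      have := (Prod.mk.inj hbc.2.2.2.2.2).1
      rw [e1, e2] at this
      exact this
  intro x hx
  exact hf (d x) x (key x x hx le_rfl)

theorem Col.empty {C : Type} [Inhabited C] : Col A (∅ : Set V) C := by
  refine ⟨fun _ => default, ?_⟩
  intro x hx
  obtain ⟨y, hy, _⟩ := Relation.TransGen.head'_iff.1 hx
  exact hy.1

theorem Col.mono {C : Type} {X Y : Set V} (hXY : X ⊆ Y) (h : Col A Y C) : Col A X C := by
  obtain ⟨f, hf⟩ := h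
  refine ⟨f, fun x hx => hf x (Relation.TransGen.mono ?_ x x hx)⟩
  rintro a b ⟨a1, a2, a3, a4, a5, a6⟩
  exact ⟨hXY a1, hXY a2, a3, a4, a5, a6⟩

/-- minimal non-colourable subset -/
theorem exists_critical [Finite V] {C : Type} {Y : Set V} (h : ¬ Col A Y C) :
    ∃ X ⊆ Y, ¬ Col A X C ∧ ∀ Z, Z ⊂ X → Col A Z C := by
  classical
  obtain ⟨X, hX, hmin⟩ := WellFounded.has_min (r := fun a b : Set V => a < b) wellFounded_lt
    {X : Set V | X ⊆ Y ∧ ¬ Col A X C} ⟨Y, le_rfl, h⟩
  refine ⟨X, hX.1, hX.2, fun Z hZ => ?_⟩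
  by_contra hcon
  exact hmin Z ⟨hZ.1.trans hX.1, hcon⟩ hZ

theorem reach_of_transGen_on {Y : Set V} {x y : V}
    (h : Relation.TransGen (fun a b => a ∈ Y ∧ b ∈ Y ∧ A a b) x y) :
    ∃ (L : ℕ) (w : ℕ → V), 1 ≤ L ∧ w 0 = x ∧ w L = y ∧ (∀ i < L, A (w i) (w (i + 1))) ∧
      ∀ i ≤ L, w i ∈ Y := by
  obtain ⟨L, w, h1, h2, h3, h4, _⟩ := reach_of_transGen h
  refine ⟨L, w, h1, h2, h3, fun i hi => (h4 i hi).2.2, ?_⟩
  intro i hi
  rcases lt_or_eq_of_le hi with hlt | rfl
  · exact (h4 i hlt).1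
  · have := (h4 (i - 1) (by omega)).2.1
    have e : i - 1 + 1 = i := by omega
    rwa [e] at this

theorem neck_of_not_col [Finite V] {q : ℕ} (hq : 1 ≤ q) (hloop : ∀ v, ¬ A v v)
    (hcol : ¬ Col A Set.univ (ZMod (q + 1) × Bool)) : HasNeck A (q + 2) := by
  classical
  obtain ⟨Y, -, hY, hYmin⟩ := exists_critical hcol
  -- strong
  have hstrong : ∀ x ∈ Y, ∀ y ∈ Y, ∃ (L : ℕ) (w : ℕ → V), w 0 = x ∧ w L = y ∧
      (∀ i < L, A (w i) (w (i + 1))) ∧ ∀ i ≤ L, w i ∈ Y := by
    intro x hx y hy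
    by_contra hcon
    set R : Set V := {z | z ∈ Y ∧
      Relation.ReflTransGen (fun a b => a ∈ Y ∧ b ∈ Y ∧ A a b) x z} with hR
    have hyR : y ∉ R := by
      rintro ⟨_, h⟩
      rcases Relation.reflTransGen_iff_eq_or_transGen.1 h with h | h
      · subst h
        exact hcon ⟨0, fun _ => y, rfl, rfl, fun i hi => absurd hi (by omega), fun _ _ => hy⟩
      · obtain ⟨L, w, _, h2, h3, h4, h5⟩ := reach_of_transGen_on h
        exact hcon ⟨L, w, h2, h3, h4, h5⟩
    have hxR : x ∈ R := ⟨hx, Relation.ReflTransGen.refl⟩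
    refine hY (Col.glue (R := R) ?_ ?_ ?_)
    · rintro a ⟨ha, ha'⟩ b hb hab
      exact ⟨hb, ha'.tail ⟨ha, hb, hab⟩⟩
    · refine hYmin _ ⟨Set.inter_subset_left, fun hsub => hyR (hsub hy).2⟩
    · refine hYmin _ ⟨Set.diff_subset, fun hsub => (hsub hx).2 hxR⟩
  have hYne : Y.Nonempty := by
    by_contra hcon
    rw [Set.not_nonempty_iff_eq_empty] at hcon
    subst hcon
    exact hY Col.empty
  obtain ⟨r, hr⟩ := hYne
  -- distances
  let D : V → V → Set ℕ := fun x y => {L | ∃ w : ℕ → V, w 0 = x ∧ w L = y ∧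
    (∀ i < L, A (w i) (w (i + 1))) ∧ ∀ i ≤ L, w i ∈ Y}
  let dist : V → V → ℕ := fun x y => sInf (D x y)
  have hDne : ∀ x ∈ Y, ∀ y ∈ Y, (D x y).Nonempty := by
    intro x hx y hy
    obtain ⟨L, w, h1, h2, h3, h4⟩ := hstrong x hx y hy
    exact ⟨L, w, h1, h2, h3, h4⟩
  have hDmem : ∀ x ∈ Y, ∀ y ∈ Y, dist x y ∈ D x y := fun x hx y hy => Nat.sInf_mem (hDne x hx y hy)
  have hDle : ∀ x y L, L ∈ D x y → dist x y ≤ L := fun x y L hL => Nat.sInf_le hL
  have hstep : ∀ x ∈ Y, ∀ y ∈ Y, A x y → dist r y ≤ dist r x + 1 := by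
    intro x hx y hy hxy
    obtain ⟨w, w0, wL, wA, wY⟩ := hDmem r hr x hx
    refine hDle _ _ _ ⟨fun i => if i ≤ dist r x then w i else y, by simp [w0], by simp, ?_, ?_⟩
    · intro i hi
      by_cases h1 : i + 1 ≤ dist r x
      · have h2 : i ≤ dist r x := by omega
        simp only [h1, h2, if_true]; exact wA i (by omega)
      · have h2 : i ≤ dist r x := by omega
        have h3 : i = dist r x := by omega
        simp only [h1, h2, if_true, if_false]
        rw [h3, wL]; exact hxy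
    · intro i hi
      by_cases h1 : i ≤ dist r x
      · simp only [h1, if_true]; exact wY i h1
      · simp only [h1, if_false]; exact hy
  -- a level which is not colourable
  have hlev : ∃ i, ¬ Col A {x | x ∈ Y ∧ dist r x = i} (ZMod (q + 1)) := by
    by_contra hcon
    push Not at hcon
    exact hY (Col.levels (fun x => dist r x) hstep hcon)
  obtain ⟨i, hi⟩ := hlev
  obtain ⟨X, hXsub, hX, hXmin⟩ := exists_critical hi
  have hXY : X ⊆ Y := fun x hx => (hXsub hx).1
  have hXd : ∀ x ∈ X, dist r x = i := fun x hx => (hXsub hx).2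
  have hXne : X.Nonempty := by
    by_contra hcon
    rw [Set.not_nonempty_iff_eq_empty] at hcon
    subst hcon
    exact hX Col.empty
  have hrX : r ∉ X := by
    intro hrX
    have h0 : dist r r = 0 := by
      have : (0 : ℕ) ∈ D r r :=
        ⟨fun _ => r, rfl, rfl, fun i hi => absurd hi (by omega), fun _ _ => hr⟩
      have := hDle _ _ _ this
      omega
    have hi0 : i = 0 := by rw [← hXd r hrX, h0]
    have hsingle : ∀ x ∈ X, x = r := by
      intro x hx
      obtain ⟨w, w0, wL, _, _⟩ := hDmem r hr x (hXY hx)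
      have : dist r x = 0 := by rw [hXd x hx, hi0]
      rw [this] at wL
      rw [← wL, w0]
    refine hX ⟨fun _ => 0, ?_⟩
    intro x hx
    obtain ⟨y, hy, _⟩ := Relation.TransGen.head'_iff.1 hx
    obtain ⟨a1, a2, _, _, a5, _⟩ := hy
    have e1 := hsingle _ a1
    have e2 := hsingle _ a2
    rw [e1, e2] at a5
    exact hloop _ a5
  -- the exit
  obtain ⟨h, hhX, hmin⟩ : ∃ h ∈ X, ∀ x ∈ X, dist h r ≤ dist x r := by
    have : ∃ m, ∃ x ∈ X, dist x r = m := by
      obtain ⟨x, hx⟩ := hXne; exact ⟨_, x, hx, rfl⟩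
    obtain ⟨x, hx, hxe⟩ := Nat.find_spec this
    refine ⟨x, hx, fun y hy => ?_⟩
    rw [hxe]
    exact Nat.find_min' this ⟨y, hy, rfl⟩
  have hO : ∀ x ∈ X, x ≠ h → Reach A Xᶜ h x := by
    intro x hx _
    obtain ⟨w, w0, wL, wA, wY⟩ := hDmem h (hXY hhX) r hr
    obtain ⟨w', w0', wL', wA', wY'⟩ := hDmem r hr x (hXY hx)
    have hL : 1 ≤ dist h r := by
      by_contra hcon
      have : dist h r = 0 := by omega
      rw [this, w0] at wL
      exact hrX (wL ▸ hhX)
    have hL' : 1 ≤ dist r x := by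
      by_contra hcon
      have : dist r x = 0 := by omega
      rw [this, w0'] at wL'
      exact hrX (wL' ▸ hx)
    have r1 : Reach A Xᶜ h r := by
      refine ⟨dist h r, w, hL, w0, wL, wA, ?_⟩
      intro k hk0 hk hkX
      have h1 : dist (w k) r ≤ dist h r - k := by
        refine hDle _ _ _ ⟨fun t => w (k + t), by simp, ?_, ?_, ?_⟩
        · have e : k + (dist h r - k) = dist h r := by omega
          simp only [e]; exact wL
        · intro t ht; exact wA (k + t) (by omega)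
        · intro t ht; exact wY (k + t) (by omega)
      have h2 := hmin (w k) hkX
      omega
    have r2 : Reach A Xᶜ r x := by
      refine ⟨dist r x, w', hL', w0', wL', wA', ?_⟩
      intro k hk0 hk hkX
      have h1 : dist r (w' k) ≤ k :=
        hDle _ _ _ ⟨w', w0', rfl, fun t ht => wA' t (by omega), fun t ht => wY' t (by omega)⟩
      have h2 := hXd (w' k) hkX
      have h3 := hXd x hx
      omega
    exact r1.trans hrX r2
  refine main_lemma hhX hq hloop hO hX (hXmin _ ⟨Set.diff_subset, fun hsub => (hsub hhX).2 rfl⟩)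

/-- From the form of the frozen statement. -/
theorem neck_of_dichromatic [Finite V] {ℓ : ℕ} (hℓ : 3 ≤ ℓ) (hloop : ∀ v, ¬ A v v)
    (hchi : ¬ ∃ (c : V → Fin (2 * ℓ - 2)) (r : V → ℕ), ∀ u v, A u v → c u = c v → r u < r v) :
    HasNeck A ℓ := by
  classical
  obtain ⟨q, rfl⟩ : ∃ q, ℓ = q + 2 := ⟨ℓ - 2, by omega⟩
  refine neck_of_not_col (by omega) hloop ?_
  rintro ⟨f, hf⟩
  apply hchi
  have hcard : Fintype.card (ZMod (q + 1) × Bool) = 2 * (q + 2) - 2 := by
    rw [Fintype.card_prod, ZMod.card, Fintype.card_bool]; omega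
  let e : ZMod (q + 1) × Bool ≃ Fin (2 * (q + 2) - 2) := Fintype.equivFinOfCardEq hcard
  refine ⟨fun v => e (f v), fun v => {u | Relation.TransGen (Mono A Set.univ f ∅) u v}.ncard, ?_⟩
  intro u v huv hc
  have hfe : f u = f v := e.injective hc
  have hM : Mono A Set.univ f ∅ u v :=
    ⟨trivial, trivial, Set.notMem_empty _, Set.notMem_empty _, huv, hfe⟩
  refine Set.ncard_lt_ncard ⟨?_, ?_⟩ (Set.toFinite _)
  · intro x hx
    exact Relation.TransGen.tail hx hM
  · intro hsub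
    have : u ∈ {x | Relation.TransGen (Mono A Set.univ f ∅) x v} := Relation.TransGen.single hM
    exact hf u (hsub this)

end Pool.Agent.Hhelper50.Mader
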