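import Pool.Agent.Hhelper50.Mader.Ladder

/-!
# The events which close a necklace
-/

set_option autoImplicit false

namespace Pool.Agent.Hhelper50.Mader

variable {V : Type}
variable {A : V → V → Prop} {X : Set V} {h : V} {n : ℕ} {P : ℕ → ℕ → V} {len : ℕ → ℕ}

/-- vertices of the ladder strictly between the joint `b` and the vertex `P i s` -/
def seg (P : ℕ → ℕ → V) (len : ℕ → ℕ) (b i s : ℕ) : Set V :=
  {x | ∃ k t, b ≤ k ∧ (b < k ∨ 0 < t) ∧ (k < i ∨ (k = i ∧ t < s)) ∧ t < len k ∧ x = P k t}

theorem Ladder.reach_joints (H : Ladder A X h n P len) {b : ℕ} :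
    ∀ m, b < m → m ≤ n → Reach A (seg P len b m 0) (P b 0) (P m 0) := by
  intro m
  induction m with
  | zero => intro h1; omega
  | succ m ih =>
    intro h1 h2
    by_cases hb : b = m
    · subst hb
      refine (H.reach_bead (by omega)).mono ?_
      rintro x ⟨s, h0, hs, rfl⟩
      exact ⟨b, s, le_rfl, Or.inr h0, Or.inl (by omega), hs, rfl⟩
    · refine (ih (by omega) (by omega)).trans' (H.reach_bead (i := m) (by omega)) ?_ ?_ ?_
      · rintro x ⟨k, t, c1, c2, c3, c4, rfl⟩
        exact ⟨k, t, c1, c2, Or.inl (by omega), c4, rfl⟩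
      · exact ⟨m, 0, by omega, Or.inl (by omega), Or.inl (by omega), H.len_pos m (by omega), rfl⟩
      · rintro x ⟨s, h0, hs, rfl⟩
        exact ⟨m, s, by omega, Or.inr h0, Or.inl (by omega), hs, rfl⟩

theorem Ladder.reach_fwd (H : Ladder A X h n P len) {b i s : ℕ} (hbi : b ≤ i) (hi : i ≤ n)
    (hs : s < len i) (hne : b < i ∨ 0 < s) :
    Reach A (seg P len b i s) (P b 0) (P i s) := by
  rcases Nat.eq_zero_or_pos s with rfl | hs0
  · rcases hne with hne | hne
    · exact H.reach_joints i hne hi
    · omega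
  · have hin : i < n := by
      rcases lt_or_eq_of_le hi with hh | hh
      · exact hh
      · subst hh; rw [H.len_last] at hs; omega
    have hpart : Reach A (seg P len b i s) (P i 0) (P i s) := by
      refine (H.reach_part hin hs0 hs.le).mono ?_
      rintro x ⟨r, h1, h2, rfl⟩
      exact ⟨i, r, hbi, Or.inr h1, Or.inr ⟨rfl, h2⟩, by omega, rfl⟩
    rcases lt_or_eq_of_le hbi with hlt | rfl
    · refine (H.reach_joints i hlt hi).trans' hpart ?_ ?_ le_rfl
      · rintro x ⟨k, t, c1, c2, c3, c4, rfl⟩
        exact ⟨k, t, c1, c2, Or.inl (by omega), c4, rfl⟩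
      · exact ⟨i, 0, hbi, Or.inl hlt, Or.inr ⟨rfl, hs0⟩, H.len_pos i hi, rfl⟩
    · exact hpart

/-- A return path to an old joint closes a necklace. -/
theorem Ladder.ret (H : Ladder A X h n P len)
    (hO : ∀ x ∈ X, x ≠ h → Reach A Xᶜ h x) {q a i s : ℕ} (hi : i ≤ n) (hs : s < len i)
    (hq : 1 ≤ q)
    (hai : a + q + 1 ≤ i ∨ (a + q = i ∧ 0 < s)) (R : Set V) (hR : Reach A R (P i s) (P a 0))
    (hRX : R ⊆ X) (hRj : ∀ x ∈ R, ∀ k ≤ n, x ≠ P k 0)
    (hRi : ∀ x ∈ R, ∀ k, a ≤ k → k ≤ n → ∀ t < len k, x ≠ P k t) : HasNeck A (q + 2) := by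
  rcases hai with hai | ⟨hai, hs0⟩
  · -- the joint `a + q + 1` is the last joint
    set z := P (a + q + 1) 0 with hz
    have key : ∃ T : Set V, Reach A T z (P a 0) ∧ T ⊆ X ∧
        (∀ x ∈ T, ∀ k ≤ a + q + 1, x ≠ P k 0) ∧
        (∀ x ∈ T, ∀ k, a ≤ k → k ≤ a + q → ∀ t < len k, x ≠ P k t) := by
      by_cases hc : a + q + 1 < i ∨ 0 < s
      · have h1 := H.reach_fwd (b := a + q + 1) hai hi hs hc
        refine ⟨seg P len (a + q + 1) i s ∪ {P i s} ∪ R,
          h1.trans' hR ?_ ?_ ?_, ?_, ?_, ?_⟩
        · intro x hx; exact Or.inl (Or.inl hx)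
        · exact Or.inl (Or.inr rfl)
        · intro x hx; exact Or.inr hx
        · rintro x ((⟨k, t, c1, c2, c3, c4, rfl⟩ | rfl) | hx)
          · exact H.mem k (by omega) t c4
          · exact H.mem i hi s hs
          · exact hRX hx
        · rintro x ((⟨k, t, c1, c2, c3, c4, rfl⟩ | rfl) | hx) k' hk' he
          · have := H.inj k (by omega) t c4 k' (by omega) 0 (H.len_pos k' (by omega)) he
            omega
          · have := H.inj i hi s hs k' (by omega) 0 (H.len_pos k' (by omega)) he
            omega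
          · exact hRj x hx k' (by omega) he
        · rintro x ((⟨k, t, c1, c2, c3, c4, rfl⟩ | rfl) | hx) k' hk1 hk2 t' ht' he
          · have := H.inj k (by omega) t c4 k' (by omega) t' ht' he
            omega
          · have := H.inj i hi s hs k' (by omega) t' ht' he
            omega
          · exact hRi x hx k' hk1 (by omega) t' ht' he
      · have e1 : i = a + q + 1 := by omega
        have e2 : s = 0 := by omega
        subst e1; subst e2
        refine ⟨R, hR, hRX, fun x hx k hk => hRj x hx k (by omega), ?_⟩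
        intro x hx k hk1 hk2 t ht
        exact hRi x hx k hk1 (by omega) t ht
    obtain ⟨T, t1, t2, t3, t4⟩ := key
    refine H.win hO (a := a) (by omega) z (H.joint_mem (by omega)) (inner P len (a + q)) ∅ T
      ?_ ?_ t1 ?_ ?_ t2 ?_ ?_ ?_ ?_ ?_ ?_ ?_ ?_
    · exact H.reach_bead (by omega)
    · exact Reach.arc (H.back _ (by omega))
    · rintro x ⟨t, h0, ht, rfl⟩; exact H.mem _ (by omega) t ht
    · exact Set.empty_subset _
    · intro x _ hx; exact Set.notMem_empty _ hx
    · rintro x ⟨t, h0, ht, rfl⟩ hx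
      exact t4 _ hx (a + q) (by omega) le_rfl t ht rfl
    · intro x hx; exact absurd hx (Set.notMem_empty _)
    · rintro ⟨t, h0, ht, he⟩
      have := H.inj _ (by omega) 0 (H.len_pos (a + q + 1) (by omega)) (a + q) (by omega) t ht he
      omega
    · exact Set.notMem_empty _
    · intro hx; exact t3 z hx (a + q + 1) le_rfl rfl
    · rintro x (⟨t, h0, ht, rfl⟩ | hx | hx | rfl) k hk he
      · have := H.inj _ (by omega) t ht k (by omega) 0 (H.len_pos k (by omega)) he
        omega
      · exact Set.notMem_empty _ hx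
      · exact t3 x hx k (by omega) he
      · have := H.joint_inj (by omega) (by omega) he
        omega
    · rintro x (⟨t, h0, ht, rfl⟩ | hx | hx | rfl) k hk1 hk2 t' ht0' ht' he
      · have := H.inj _ (by omega) t ht k (by omega) t' ht' he
        omega
      · exact Set.notMem_empty _ hx
      · exact t4 x hx k hk1 (by omega) t' ht' he
      · have := H.inj _ (by omega) 0 (H.len_pos (a + q + 1) (by omega)) k (by omega) t' ht' he
        omega
  · -- split the bead at `P i s`
    have hin : i < n := by
      rcases lt_or_eq_of_le hi with hh | hh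
      · exact hh
      · subst hh; rw [H.len_last] at hs; omega
    set z := P i s with hz
    set T1 : Set V := {x | ∃ r, 0 < r ∧ r < s ∧ x = P i r} with hT1
    set T2 : Set V := {x | ∃ r, s < r ∧ r < len i ∧ x = P i r} ∪ {P (i + 1) 0} with hT2
    have r1 : Reach A T1 (P (a + q) 0) z := by
      rw [hai]; exact H.reach_part hin hs0 hs.le
    have r2 : Reach A T2 z (P (a + q) 0) := by
      have h1 : Reach A {x | ∃ r, s < r ∧ r < len i ∧ x = P i r} z (P (i + 1) 0) := by
        rw [← H.link i hin]; exact H.reach_part hin hs le_rfl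
      rw [hai]
      exact h1.trans' (Reach.arc (S := ∅) (H.back i hin)) Set.subset_union_left
        (Or.inr rfl) (Set.empty_subset _)
    refine H.win hO (a := a) (by omega) z (H.mem i hi s hs) T1 T2 R r1 r2 hR
      ?_ ?_ hRX ?_ ?_ ?_ ?_ ?_ ?_ ?_ ?_
    · rintro x ⟨r, c1, c2, rfl⟩; exact H.mem i hi r (by omega)
    · rintro x (⟨r, c1, c2, rfl⟩ | rfl)
      · exact H.mem i hi r (by omega)
      · exact H.joint_mem (by omega)
    · rintro x ⟨r, c1, c2, rfl⟩ (⟨r', c1', c2', he⟩ | he)
      · have := H.inj i hi r (by omega) i hi r' (by omega) he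
        omega
      · have := H.inj i hi r (by omega) (i + 1) (by omega) 0 (H.len_pos _ (by omega)) he
        omega
    · rintro x ⟨r, c1, c2, rfl⟩ hx
      exact hRi _ hx i (by omega) hi r (by omega) rfl
    · rintro x (⟨r, c1, c2, rfl⟩ | rfl) hx
      · exact hRi _ hx i (by omega) hi r (by omega) rfl
      · exact hRj _ hx (i + 1) (by omega) rfl
    · rintro ⟨r, c1, c2, he⟩
      have := H.inj i hi s hs i hi r (by omega) he
      omega
    · rintro (⟨r, c1, c2, he⟩ | he)
      · have := H.inj i hi s hs i hi r (by omega) he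
        omega
      · have := H.inj i hi s hs (i + 1) (by omega) 0 (H.len_pos _ (by omega)) he
        omega
    · intro hx
      exact hRi _ hx i (by omega) hi s hs rfl
    · rintro x (⟨r, c1, c2, rfl⟩ | (⟨r, c1, c2, rfl⟩ | rfl) | hx | rfl) k hk he
      · have := H.inj i hi r (by omega) k (by omega) 0 (H.len_pos _ (by omega)) he
        omega
      · have := H.inj i hi r (by omega) k (by omega) 0 (H.len_pos _ (by omega)) he
        omega
      · have := H.joint_inj (by omega) (by omega) he
        omega
      · exact hRj _ hx k (by omega) he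
      · have := H.inj i hi s hs k (by omega) 0 (H.len_pos _ (by omega)) he
        omega
    · rintro x (⟨r, c1, c2, rfl⟩ | (⟨r, c1, c2, rfl⟩ | rfl) | hx | rfl) k hk1 hk2 t ht0 ht he
      · have := H.inj i hi r (by omega) k (by omega) t ht he
        omega
      · have := H.inj i hi r (by omega) k (by omega) t ht he
        omega
      · have := H.inj (i + 1) (by omega) 0 (H.len_pos _ (by omega)) k (by omega) t ht he
        omega
      · exact hRi _ hx k (by omega) (by omega) t ht he
      · have := H.inj i hi s hs k (by omega) t ht he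
        omega

/-- monochromatic arcs inside `X` off `J` -/
def Mono (A : V → V → Prop) (X : Set V) {C : Type} (f : V → C) (J : Set V) (x y : V) : Prop :=
  x ∈ X ∧ y ∈ X ∧ x ∉ J ∧ y ∉ J ∧ A x y ∧ f x = f y

/-- no monochromatic cycle in `X` off `J` -/
def Good (A : V → V → Prop) (X : Set V) {C : Type} (f : V → C) (J : Set V) : Prop :=
  ∀ x, ¬ Relation.TransGen (Mono A X f J) x x

theorem cast_eq_imp {q i n : ℕ} (hin : i < n) (he : (i : ZMod (q + 1)) = (n : ZMod (q + 1))) :
    i + (q + 1) = n ∨ i + 2 * (q + 1) ≤ n := by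
  have h1 : i ≡ n [MOD (q + 1)] := (ZMod.natCast_eq_natCast_iff i n (q + 1)).1 he
  have h2 : (q + 1) ∣ n - i := (Nat.modEq_iff_dvd' hin.le).1 h1
  obtain ⟨c, hc⟩ := h2
  rcases Nat.lt_or_ge c 1 with h | h
  · have : c = 0 := by omega
    subst this; omega
  · rcases Nat.lt_or_ge c 2 with h' | h'
    · have : c = 1 := by omega
      subst this; left; omega
    · right
      have : (q + 1) * 2 ≤ (q + 1) * c := Nat.mul_le_mul_left _ h'
      omega

/-- a walk in a relation gives `TransGen` -/
theorem transGen_of_walk {R : V → V → Prop} {w : ℕ → V} {i j : ℕ} (hij : i < j)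
    (hw : ∀ k, i ≤ k → k < j → R (w k) (w (k + 1))) : Relation.TransGen R (w i) (w j) := by
  induction j with
  | zero => omega
  | succ j ih =>
    by_cases he : i = j
    · subst he; exact Relation.TransGen.single (hw i le_rfl (by omega))
    · exact Relation.TransGen.tail (ih (by omega) (fun k h1 h2 => hw k h1 (by omega)))
        (hw j (by omega) (by omega))

end Pool.Agent.Hhelper50.Mader
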