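import Pool.Agent.Hhelper50.Mader.Event

/-!
# A monochromatic cycle through the last joint which meets the ladder closes a necklace
-/

set_option autoImplicit false

namespace Pool.Agent.Hhelper50.Mader

variable {V : Type}
variable {A : V → V → Prop} {X : Set V} {h : V} {n : ℕ} {P : ℕ → ℕ → V} {len : ℕ → ℕ}

theorem reach_of_walk {w : ℕ → V} {i j : ℕ} (hij : i < j)
    (hw : ∀ k, i ≤ k → k < j → A (w k) (w (k + 1))) :
    Reach A {x | ∃ t, i < t ∧ t < j ∧ x = w t} (w i) (w j) := by
  refine ⟨j - i, fun k => w (i + k), by omega, by simp, ?_, ?_, ?_⟩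
  · have : i + (j - i) = j := by omega
    simp [this]
  · intro k hk
    exact hw (i + k) (by omega) (by omega)
  · intro k h0 hk
    exact ⟨i + k, by omega, by omega, rfl⟩

theorem Ladder.event (H : Ladder A X h n P len)
    (hO : ∀ x ∈ X, x ≠ h → Reach A Xᶜ h x) {q : ℕ} (hq : 1 ≤ q) (f : V → ZMod (q + 1))
    (hf : ∀ i ≤ n, ∀ s < len i, f (P i s) = (i : ZMod (q + 1)))
    (hG : Good A X f {x | ∃ k ≤ n, x = P k 0}) {L : ℕ} {w : ℕ → V} (hL : 1 ≤ L)
    (w0 : w 0 = P n 0) (wL : w L = P n 0)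
    (hw : ∀ i < L, Mono A X f {x | ∃ k < n, x = P k 0} (w i) (w (i + 1)))
    (hs : ∀ i j, i < j → j ≤ L → ¬ (i = 0 ∧ j = L) → w i ≠ w j)
    (hhit : ∃ k, 0 < k ∧ k < L ∧ ∃ i s, i < n ∧ s < len i ∧ w k = P i s) :
    HasNeck A (q + 2) := by
  classical
  have wX : ∀ k < L, w k ∈ X := fun k hk => (hw k hk).1
  have wold : ∀ k < L, ∀ i < n, w k ≠ P i 0 := fun k hk i hi he =>
    (hw k hk).2.2.1 ⟨i, hi, he⟩
  have wnew : ∀ k, 0 < k → k < L → w k ≠ P n 0 := by
    intro k h0 hk he
    exact hs 0 k h0 hk.le (by omega) (w0.trans he.symm)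
  have wj : ∀ k, 0 < k → k < L → ∀ i ≤ n, w k ≠ P i 0 := by
    intro k h0 hk i hi
    rcases lt_or_eq_of_le hi with h | rfl
    · exact wold k hk i h
    · exact wnew k h0 hk
  have wf : ∀ k ≤ L, f (w k) = (n : ZMod (q + 1)) := by
    intro k
    induction k with
    | zero => intro _; rw [w0]; exact hf n le_rfl 0 (H.len_pos n le_rfl)
    | succ k ih => intro hk; rw [← (hw k (by omega)).2.2.2.2.2]; exact ih (by omega)
  have wA : ∀ k < L, A (w k) (w (k + 1)) := fun k hk => (hw k hk).2.2.2.2.1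
  have hidx : ∀ k, 0 < k → k < L → ∀ i s, i < n → s < len i → w k = P i s →
      0 < s ∧ (i + (q + 1) = n ∨ i + 2 * (q + 1) ≤ n) := by
    intro k h0 hk i s hi hsl he
    refine ⟨?_, ?_⟩
    · rcases Nat.eq_zero_or_pos s with rfl | h
      · exact absurd he (wold k hk i hi)
      · exact h
    · refine cast_eq_imp hi ?_
      rw [← hf i hi.le s hsl, ← he]; exact wf k hk.le
  by_cases H1 : ∃ k, 0 < k ∧ k < L ∧ ∃ i s, i + 2 * (q + 1) ≤ n ∧ s < len i ∧ w k = P i s
  · obtain ⟨hk0, hkL, i', s', hi', hs', he'⟩ := Nat.find_spec H1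
    have hmin := fun m hm => Nat.find_min H1 (m := m) hm
    set k := Nat.find H1 with hk
    set Q : ℕ → Prop := fun m => m = 0 ∨ ∃ i s, i < n ∧ s < len i ∧ w m = P i s with hQ
    have hspec : Q (Nat.findGreatest Q (k - 1)) :=
      Nat.findGreatest_spec (m := 0) (Nat.zero_le _) (Or.inl rfl)
    have hle : Nat.findGreatest Q (k - 1) ≤ k - 1 := Nat.findGreatest_le _
    have hgr : ∀ t, Nat.findGreatest Q (k - 1) < t → t ≤ k - 1 → ¬ Q t := fun t h1 h2 =>
      Nat.findGreatest_is_greatest h1 h2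
    set k0 := Nat.findGreatest Q (k - 1) with hk0'
    have hs'0 : 0 < s' := (hidx k hk0 hkL i' s' (by omega) hs' he').1
    have hi'n : i' < n := by omega
    -- the return path
    set R : Set V := {x | ∃ t, k0 < t ∧ t < k ∧ x = w t} ∪
      ({P i' s'} ∪ {x | ∃ r, s' < r ∧ r < len i' ∧ x = P i' r}) with hR
    have hreach : Reach A R (w k0) (P (i' + 1) 0) := by
      have h1 : Reach A {x | ∃ t, k0 < t ∧ t < k ∧ x = w t} (w k0) (w k) :=
        reach_of_walk (by omega) (fun m _ hm => wA m (by omega))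
      have h2 : Reach A {x | ∃ r, s' < r ∧ r < len i' ∧ x = P i' r} (w k) (P (i' + 1) 0) := by
        rw [he', ← H.link i' hi'n]
        exact H.reach_part hi'n hs' le_rfl
      refine h1.trans' h2 Set.subset_union_left ?_ ?_
      · exact Or.inr (Or.inl he')
      · exact fun x hx => Or.inr (Or.inr hx)
    have hRX : R ⊆ X := by
      rintro x (⟨t, c1, c2, rfl⟩ | (rfl | ⟨r, c1, c2, rfl⟩))
      · exact wX t (by omega)
      · exact H.mem i' (by omega) s' hs'
      · exact H.mem i' (by omega) r c2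
    have hRj : ∀ x ∈ R, ∀ k ≤ n, x ≠ P k 0 := by
      rintro x (⟨t, c1, c2, rfl⟩ | (rfl | ⟨r, c1, c2, rfl⟩)) m hm he
      · exact wj t (by omega) (by omega) m hm he
      · have := H.inj i' (by omega) s' hs' m hm 0 (H.len_pos m hm) he
        omega
      · have := H.inj i' (by omega) r c2 m hm 0 (H.len_pos m hm) he
        omega
    have hRi : ∀ x ∈ R, ∀ m, i' + 1 ≤ m → m ≤ n → ∀ t < len m, x ≠ P m t := by
      rintro x (⟨t, c1, c2, rfl⟩ | (rfl | ⟨r, c1, c2, rfl⟩)) m hm1 hm2 t' ht' he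
      · rcases lt_or_eq_of_le hm2 with hlt | rfl
        · exact hgr t c1 (by omega) (Or.inr ⟨m, t', hlt, ht', he⟩)
        · have : t' = 0 := by rw [H.len_last] at ht'; omega
          subst this
          exact wj t (by omega) (by omega) m le_rfl he
      · have := H.inj i' (by omega) s' hs' m hm2 t' ht' he
        omega
      · have := H.inj i' (by omega) r c2 m hm2 t' ht' he
        omega
    rcases Nat.eq_zero_or_pos k0 with hz | hz
    · rw [hz, w0] at hreach
      exact H.ret hO (q := q) (a := i' + 1) le_rfl (H.len_pos n le_rfl) hq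
        (Or.inl (by omega)) R hreach hRX hRj hRi
    · rcases hspec with hspec | ⟨i, s, hin, hsl, he⟩
      · omega
      · obtain ⟨hs0, hor⟩ := hidx k0 hz (by omega) i s hin hsl he
        have hnot : ¬ i + 2 * (q + 1) ≤ n := fun hh =>
          hmin k0 (by omega) ⟨hz, by omega, i, s, hh, hsl, he⟩
        have hieq : i + (q + 1) = n := by rcases hor with h | h; exacts [h, absurd h hnot]
        rw [he] at hreach
        refine H.ret hO (q := q) (a := i' + 1) hin.le hsl hq ?_ R hreach hRX hRj hRi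
        by_cases hc : i' + 1 + q = i
        · exact Or.inr ⟨hc, hs0⟩
        · exact Or.inl (by omega)
  · -- all meetings are on the path `n - (q + 1)`
    have hall : ∀ k, 0 < k → k < L → ∀ i s, i < n → s < len i → w k = P i s →
        0 < s ∧ i + (q + 1) = n := by
      intro k h0 hk i s hi hsl he
      obtain ⟨h1, h2⟩ := hidx k h0 hk i s hi hsl he
      refine ⟨h1, ?_⟩
      rcases h2 with h2 | h2
      · exact h2
      · exact absurd ⟨k, h0, hk, i, s, h2, hsl, he⟩ H1
    set Q : ℕ → Prop := fun m => 0 < m ∧ ∃ i s, i < n ∧ s < len i ∧ w m = P i s with hQ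
    obtain ⟨k1, hk10, hk1L, hk1⟩ := hhit
    have hspec : Q (Nat.findGreatest Q (L - 1)) :=
      Nat.findGreatest_spec (m := k1) (by omega) ⟨hk10, hk1⟩
    have hle : Nat.findGreatest Q (L - 1) ≤ L - 1 := Nat.findGreatest_le _
    have hgr : ∀ t, Nat.findGreatest Q (L - 1) < t → t ≤ L - 1 → ¬ Q t := fun t h1 h2 =>
      Nat.findGreatest_is_greatest h1 h2
    set k := Nat.findGreatest Q (L - 1) with hk
    obtain ⟨hk0, j, s0, hjn, hs0l, hez⟩ := hspec
    have hkL : k < L := by omega
    obtain ⟨hs0, hj⟩ := hall k hk0 hkL j s0 hjn hs0l hez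
    set T1 : Set V := {x | ∃ t, 0 < t ∧ t < k ∧ x = w t} with hT1
    set T2 : Set V := {x | ∃ t, k < t ∧ t < L ∧ x = w t} with hT2
    set T3 : Set V := {x | ∃ r, s0 < r ∧ r < len j ∧ x = P j r} with hT3
    have r1 : Reach A T1 (P (j + 1 + q) 0) (w k) := by
      have : j + 1 + q = n := by omega
      rw [this, ← w0]
      exact reach_of_walk hk0 (fun m _ hm => wA m (by omega))
    have r2 : Reach A T2 (w k) (P (j + 1 + q) 0) := by
      have : j + 1 + q = n := by omega
      rw [this, ← wL]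
      exact reach_of_walk hkL (fun m _ hm => wA m (by omega))
    have r3 : Reach A T3 (w k) (P (j + 1) 0) := by
      rw [hez, ← H.link j hjn]
      exact H.reach_part hjn hs0l le_rfl
    -- the order on the two paths is the same
    have hord : ∀ t, 0 < t → t < k → ∀ r, s0 < r → r < len j → w t ≠ P j r := by
      intro t ht0 htk r hr hrl he
      -- closed monochromatic walk off the joints
      set J : Set V := {x | ∃ k ≤ n, x = P k 0} with hJ
      have c1 : Relation.TransGen (Mono A X f J) (w t) (w k) := by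
        refine transGen_of_walk htk (fun m hm1 hm2 => ?_)
        obtain ⟨a1, a2, a3, a4, a5, a6⟩ := hw m (by omega)
        refine ⟨a1, a2, ?_, ?_, a5, a6⟩
        · rintro ⟨i, hi, e⟩; exact wj m (by omega) (by omega) i hi e
        · rintro ⟨i, hi, e⟩; exact wj (m + 1) (by omega) (by omega) i hi e
      have c2 : Relation.TransGen (Mono A X f J) (P j s0) (P j r) := by
        refine transGen_of_walk (w := P j) hr (fun m hm1 hm2 => ?_)
        refine ⟨H.mem j hjn.le m (by omega), H.mem j hjn.le (m + 1) (by omega), ?_, ?_,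
          H.arc j hjn m (by omega), ?_⟩
        · rintro ⟨i, hi, e⟩
          have := H.inj j hjn.le m (by omega) i hi 0 (H.len_pos i hi) e
          omega
        · rintro ⟨i, hi, e⟩
          have := H.inj j hjn.le (m + 1) (by omega) i hi 0 (H.len_pos i hi) e
          omega
        · rw [hf j hjn.le m (by omega), hf j hjn.le (m + 1) (by omega)]
      rw [← hez, ← he] at c2
      exact hG _ (c1.trans c2)
    have hmemT : ∀ x, (x ∈ T1 ∨ x ∈ T2 ∨ x = w k) → ∃ t, 0 < t ∧ t < L ∧ x = w t := by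
      rintro x (⟨t, a1, a2, rfl⟩ | ⟨t, a1, a2, rfl⟩ | rfl)
      · exact ⟨t, a1, by omega, rfl⟩
      · exact ⟨t, by omega, a2, rfl⟩
      · exact ⟨k, hk0, hkL, rfl⟩
    refine H.win hO (a := j + 1) (q := q) (by omega) (w k) (wX k hkL) T1 T2 T3 r1 r2 r3
      ?_ ?_ ?_ ?_ ?_ ?_ ?_ ?_ ?_ ?_ ?_
    · rintro x ⟨t, a1, a2, rfl⟩; exact wX t (by omega)
    · rintro x ⟨t, a1, a2, rfl⟩; exact wX t (by omega)
    · rintro x ⟨t, a1, a2, rfl⟩; exact H.mem j hjn.le t a2
    · rintro x ⟨t, a1, a2, rfl⟩ ⟨t', b1, b2, he⟩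
      exact hs t t' (by omega) (by omega) (by omega) he
    · rintro x ⟨t, a1, a2, rfl⟩ ⟨r, b1, b2, he⟩
      exact hord t a1 a2 r b1 b2 he
    · rintro x ⟨t, a1, a2, rfl⟩ ⟨r, b1, b2, he⟩
      exact hgr t a1 (by omega) ⟨by omega, j, r, hjn, b2, he⟩
    · rintro ⟨t, a1, a2, he⟩
      exact hs t k (by omega) (by omega) (by omega) he.symm
    · rintro ⟨t, a1, a2, he⟩
      exact hs k t (by omega) (by omega) (by omega) he
    · rintro ⟨r, b1, b2, he⟩
      rw [hez] at he
      have := H.inj j hjn.le s0 hs0l j hjn.le r b2 he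
      omega
    · intro x hx i hi he
      have hx' : (x ∈ T1 ∨ x ∈ T2 ∨ x = w k) ∨ x ∈ T3 := by tauto
      rcases hx' with hx' | ⟨r, b1, b2, rfl⟩
      · obtain ⟨t, a1, a2, rfl⟩ := hmemT x hx'
        exact wj t a1 a2 i (by omega) he
      · have := H.inj j hjn.le r b2 i (by omega) 0 (H.len_pos i (by omega)) he
        omega
    · intro x hx i hi1 hi2 s hs1 hs2 he
      have hx' : (x ∈ T1 ∨ x ∈ T2 ∨ x = w k) ∨ x ∈ T3 := by tauto
      rcases hx' with hx' | ⟨r, b1, b2, rfl⟩
      · obtain ⟨t, a1, a2, rfl⟩ := hmemT x hx'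
        have := hall t a1 a2 i s (by omega) hs2 he
        omega
      · have := H.inj j hjn.le r b2 i (by omega) s hs2 he
        omega

end Pool.Agent.Hhelper50.Mader
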