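import Pool.Agent.Hhelper50.Mader.Basic

/-!
# Ladders and the closing lemma
-/

set_option autoImplicit false

namespace Pool.Agent.Hhelper50.Mader

variable {V : Type}

/-- A ladder: joints `P 0 0 = h, P 1 0, …, P n 0`, for `i < n` a path `P i 0, …, P i (len i)` from
the joint `i` to the joint `i + 1`, and an arc from the joint `i + 1` to the joint `i`; everything
is inside `X` and disjoint. -/
structure Ladder (A : V → V → Prop) (X : Set V) (h : V) (n : ℕ) (P : ℕ → ℕ → V)
    (len : ℕ → ℕ) : Prop where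
  len_pos : ∀ i ≤ n, 1 ≤ len i
  len_last : len n = 1
  start : P 0 0 = h
  link : ∀ i < n, P i (len i) = P (i + 1) 0
  arc : ∀ i < n, ∀ s < len i, A (P i s) (P i (s + 1))
  back : ∀ i < n, A (P (i + 1) 0) (P i 0)
  inj : ∀ i ≤ n, ∀ s < len i, ∀ i' ≤ n, ∀ s' < len i', P i s = P i' s' → i = i' ∧ s = s'
  mem : ∀ i ≤ n, ∀ s < len i, P i s ∈ X

variable {A : V → V → Prop} {X : Set V} {h : V} {n : ℕ} {P : ℕ → ℕ → V} {len : ℕ → ℕ}

theorem Ladder.joint_inj (H : Ladder A X h n P len) {i j : ℕ} (hi : i ≤ n) (hj : j ≤ n)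
    (he : P i 0 = P j 0) : i = j :=
  (H.inj i hi 0 (H.len_pos i hi) j hj 0 (H.len_pos j hj) he).1

theorem Ladder.joint_mem (H : Ladder A X h n P len) {i : ℕ} (hi : i ≤ n) : P i 0 ∈ X :=
  H.mem i hi 0 (H.len_pos i hi)

/-- inner vertices of the `i`-th path -/
def inner (P : ℕ → ℕ → V) (len : ℕ → ℕ) (i : ℕ) : Set V := {x | ∃ s, 0 < s ∧ s < len i ∧ x = P i s}

theorem Ladder.reach_bead (H : Ladder A X h n P len) {i : ℕ} (hi : i < n) :
    Reach A (inner P len i) (P i 0) (P (i + 1) 0) :=
  ⟨len i, P i, H.len_pos i hi.le, rfl, H.link i hi, H.arc i hi, fun s h0 hs => ⟨s, h0, hs, rfl⟩⟩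

/-- sub-path of the `i`-th path -/
theorem Ladder.reach_part (H : Ladder A X h n P len) {i : ℕ} (hi : i < n) {s t : ℕ} (hst : s < t)
    (ht : t ≤ len i) :
    Reach A {x | ∃ r, s < r ∧ r < t ∧ x = P i r} (P i s) (P i t) := by
  refine ⟨t - s, fun k => P i (s + k), by omega, by simp, ?_, ?_, ?_⟩
  · have : s + (t - s) = t := by omega
    simp [this]
  · intro k hk
    exact H.arc i hi (s + k) (by omega)
  · intro k h0 hk
    exact ⟨s + k, by omega, by omega, rfl⟩

/-- from a joint down to `h` and then outside `X` to `z` -/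
theorem Ladder.reach_back (H : Ladder A X h n P len)
    (hO : ∀ x ∈ X, x ≠ h → Reach A Xᶜ h x) {z : V} (hz : z ∈ X) (hzh : z ≠ h) :
    ∀ a ≤ n, Reach A ({x | ∃ j < a, x = P j 0} ∪ Xᶜ) (P a 0) z := by
  intro a
  induction a with
  | zero =>
    intro _
    rw [H.start]
    exact (hO z hz hzh).mono Set.subset_union_right
  | succ a ih =>
    intro ha
    have h1 := ih (by omega)
    have h2 : Reach A ({x | ∃ j < a + 1, x = P j 0} ∪ Xᶜ) (P (a + 1) 0) (P a 0) :=
      Reach.arc (H.back a (by omega))
    refine h2.trans (Or.inl ⟨a, by omega, rfl⟩) (h1.mono ?_)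
    rintro x (⟨j, hj, rfl⟩ | hx)
    · exact Or.inl ⟨j, by omega, rfl⟩
    · exact Or.inr hx

theorem zmod_cases {q : ℕ} (i : ZMod (q + 2)) :
    (i.val < q ∧ (i + 1).val = i.val + 1) ∨ (i.val = q ∧ (i + 1).val = q + 1) ∨
      (i.val = q + 1 ∧ (i + 1).val = 0) := by
  have hlt : i.val < q + 2 := ZMod.val_lt i
  have h1 : (1 : ZMod (q + 2)).val = 1 := by
    have : Fact (1 < q + 2) := ⟨by omega⟩
    exact ZMod.val_one (q + 2)
  have hadd : (i + 1).val = (i.val + 1) % (q + 2) := by rw [ZMod.val_add, h1]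
  rcases lt_trichotomy i.val q with hc | hc | hc
  · left; refine ⟨hc, ?_⟩; rw [hadd]; exact Nat.mod_eq_of_lt (by omega)
  · right; left; refine ⟨hc, ?_⟩; rw [hadd, hc]; exact Nat.mod_eq_of_lt (by omega)
  · right; right
    have : i.val = q + 1 := by omega
    refine ⟨this, ?_⟩; rw [hadd, this]; exact Nat.mod_self _

/-- The closing lemma. -/
theorem Ladder.win (H : Ladder A X h n P len)
    (hO : ∀ x ∈ X, x ≠ h → Reach A Xᶜ h x) {q a : ℕ} (haq : a + q ≤ n)
    (z : V) (hz : z ∈ X) (T1 T2 T3 : Set V)
    (h1 : Reach A T1 (P (a + q) 0) z) (h2 : Reach A T2 z (P (a + q) 0))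
    (h3 : Reach A T3 z (P a 0))
    (hX1 : T1 ⊆ X) (hX2 : T2 ⊆ X) (hX3 : T3 ⊆ X)
    (d12 : ∀ x ∈ T1, x ∉ T2) (d13 : ∀ x ∈ T1, x ∉ T3) (d23 : ∀ x ∈ T2, x ∉ T3)
    (z1 : z ∉ T1) (z2 : z ∉ T2) (z3 : z ∉ T3)
    (fj : ∀ x, (x ∈ T1 ∨ x ∈ T2 ∨ x ∈ T3 ∨ x = z) → ∀ i ≤ a + q, x ≠ P i 0)
    (fi : ∀ x, (x ∈ T1 ∨ x ∈ T2 ∨ x ∈ T3 ∨ x = z) → ∀ i, a ≤ i → i < a + q →
      ∀ s, 0 < s → s < len i → x ≠ P i s) :
    HasNeck A (q + 2) := by
  classical
  -- the last set
  set E : Set V := {x | ∃ j < a, x = P j 0} ∪ Xᶜ with hE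
  have zh : z ≠ h := by
    rw [← H.start]; exact fj z (Or.inr (Or.inr (Or.inr rfl))) 0 (by omega)
  have hback : Reach A E (P a 0) z := H.reach_back hO hz zh a (by omega)
  let b : ZMod (q + 2) → V := fun i => if i.val ≤ q then P (a + i.val) 0 else z
  let S : ZMod (q + 2) → Bool → Set V := fun i d =>
    if d then (if i.val < q then ∅ else if i.val = q then T2 else E)
    else (if i.val < q then inner P len (a + i.val) else if i.val = q then T1 else T3)
  have E1 : ∀ x ∈ E, x ∉ T1 := by
    rintro x (⟨j, hj, rfl⟩ | hx) hT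
    · exact fj _ (Or.inl hT) j (by omega) rfl
    · exact hx (hX1 hT)
  have E2 : ∀ x ∈ E, x ∉ T2 := by
    rintro x (⟨j, hj, rfl⟩ | hx) hT
    · exact fj _ (Or.inr (Or.inl hT)) j (by omega) rfl
    · exact hx (hX2 hT)
  have E3 : ∀ x ∈ E, x ∉ T3 := by
    rintro x (⟨j, hj, rfl⟩ | hx) hT
    · exact fj _ (Or.inr (Or.inr (Or.inl hT))) j (by omega) rfl
    · exact hx (hX3 hT)
  have I0 : ∀ k, k < q → ∀ x ∈ inner P len (a + k), x ∉ T1 ∧ x ∉ T2 ∧ x ∉ T3 ∧ x ∉ E ∧ x ≠ z ∧
      ∀ i ≤ n, x ≠ P i 0 := by
    rintro k hk x ⟨s, hs0, hs, rfl⟩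
    refine ⟨fun hT => ?_, fun hT => ?_, fun hT => ?_, ?_, ?_, ?_⟩
    · exact fi _ (Or.inl hT) (a + k) (by omega) (by omega) s hs0 hs rfl
    · exact fi _ (Or.inr (Or.inl hT)) (a + k) (by omega) (by omega) s hs0 hs rfl
    · exact fi _ (Or.inr (Or.inr (Or.inl hT))) (a + k) (by omega) (by omega) s hs0 hs rfl
    · rintro (⟨j, hj, he⟩ | hx)
      · have := H.inj (a + k) (by omega) s hs j (by omega) 0 (H.len_pos j (by omega)) he
        omega
      · exact hx (H.mem (a + k) (by omega) s hs)
    · intro he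
      exact fi z (Or.inr (Or.inr (Or.inr rfl))) (a + k) (by omega) (by omega) s hs0 hs he.symm
    · intro i hi he
      have := H.inj (a + k) (by omega) s hs i hi 0 (H.len_pos i hi) he
      omega
  -- code
  let code : V → ℕ × Bool := fun x =>
    if x ∈ T1 then (q, false) else if x ∈ T2 then (q, true) else if x ∈ T3 then (q + 1, false)
    else if x ∈ E then (q + 1, true)
    else if hx : ∃ k, k < q ∧ x ∈ inner P len (a + k) then (hx.choose, false) else (0, false)
  have hcode : ∀ i d x, x ∈ S i d → code x = (i.val, d) := by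
    intro i d x hx
    rcases zmod_cases i with ⟨hi, _⟩ | ⟨hi, _⟩ | ⟨hi, _⟩
    · cases d
      · have hx' : x ∈ inner P len (a + i.val) := by simpa [S, hi] using hx
        obtain ⟨n1, n2, n3, n4, n5, n6⟩ := I0 i.val hi x hx'
        have hex : ∃ k, k < q ∧ x ∈ inner P len (a + k) := ⟨i.val, hi, hx'⟩
        have hch := hex.choose_spec
        have : hex.choose = i.val := by
          obtain ⟨hk, s, hs0, hs, he⟩ := hch
          obtain ⟨s', hs0', hs', he'⟩ := hx'
          have := H.inj (a + hex.choose) (by omega) s hs (a + i.val) (by omega) s' hs'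
            (he ▸ he')
          omega
        simp only [code, n1, n2, n3, n4, if_false, hex, dif_pos, this]
      · have : x ∈ (∅ : Set V) := by simpa [S, hi] using hx
        exact absurd this (Set.notMem_empty _)
    · have hnq : ¬ i.val < q := by omega
      cases d
      · have hx' : x ∈ T1 := by simpa [S, hi, hnq] using hx
        simp only [code, hx', if_true, hi]
      · have hx' : x ∈ T2 := by simpa [S, hi, hnq] using hx
        have : x ∉ T1 := fun hh => d12 x hh hx'
        simp only [code, hx', this, if_true, if_false, hi]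
    · have hnq : ¬ i.val < q := by omega
      have hnq' : ¬ i.val = q := by omega
      cases d
      · have hx' : x ∈ T3 := by simpa [S, hi, hnq, hnq'] using hx
        have n1 : x ∉ T1 := fun hh => d13 x hh hx'
        have n2 : x ∉ T2 := fun hh => d23 x hh hx'
        simp only [code, hx', n1, n2, if_true, if_false, hi]
      · have hx' : x ∈ E := by simpa [S, hi, hnq, hnq'] using hx
        simp only [code, hx', E1 x hx', E2 x hx', E3 x hx', if_true, if_false, hi]
  refine assemble b ?_ S ?_ ?_ ?_ ?_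
  · -- injective
    intro i j hij
    have key : ∀ i j : ZMod (q + 2), b i = b j → i.val ≤ q → i.val = j.val := by
      intro i j hij hi
      by_cases hj : j.val ≤ q
      · simp only [b, hi, hj, if_true] at hij
        have := H.joint_inj (by omega) (by omega) hij
        omega
      · simp only [b, hi, hj, if_true, if_false] at hij
        exact absurd hij.symm (fj z (Or.inr (Or.inr (Or.inr rfl))) _ (by omega))
    have li := ZMod.val_lt i
    have lj := ZMod.val_lt j
    apply ZMod.val_injective (q + 2)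
    by_cases hi : i.val ≤ q
    · exact key i j hij hi
    · by_cases hj : j.val ≤ q
      · exact (key j i hij.symm hj).symm
      · omega
  · intro i d i' d' x hx hx'
    have e1 := hcode i d x hx
    have e2 := hcode i' d' x hx'
    rw [e1] at e2
    have := Prod.mk.inj e2
    exact ⟨ZMod.val_injective (q + 2) this.1, this.2⟩
  · intro i d m hm
    have lm := ZMod.val_lt m
    by_cases hmq : m.val ≤ q
    · have hb : b m = P (a + m.val) 0 := by simp only [b, hmq, if_true]
      rw [hb] at hm
      rcases zmod_cases i with ⟨hi, _⟩ | ⟨hi, _⟩ | ⟨hi, _⟩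
      · cases d
        · have hx' : P (a + m.val) 0 ∈ inner P len (a + i.val) := by simpa [S, hi] using hm
          exact (I0 i.val hi _ hx').2.2.2.2.2 (a + m.val) (by omega) rfl
        · have : P (a + m.val) 0 ∈ (∅ : Set V) := by simpa [S, hi] using hm
          exact absurd this (Set.notMem_empty _)
      · have hnq : ¬ i.val < q := by omega
        cases d
        · have hx' : P (a + m.val) 0 ∈ T1 := by simpa [S, hi, hnq] using hm
          exact fj _ (Or.inl hx') _ (by omega) rfl
        · have hx' : P (a + m.val) 0 ∈ T2 := by simpa [S, hi, hnq] using hm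
          exact fj _ (Or.inr (Or.inl hx')) _ (by omega) rfl
      · have hnq : ¬ i.val < q := by omega
        have hnq' : ¬ i.val = q := by omega
        cases d
        · have hx' : P (a + m.val) 0 ∈ T3 := by simpa [S, hi, hnq, hnq'] using hm
          exact fj _ (Or.inr (Or.inr (Or.inl hx'))) _ (by omega) rfl
        · have hx' : P (a + m.val) 0 ∈ E := by simpa [S, hi, hnq, hnq'] using hm
          rcases hx' with ⟨j, hj, he⟩ | hx
          · have := H.joint_inj (by omega) (by omega) he
            omega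
          · exact hx (H.joint_mem (by omega))
    · have hb : b m = z := by simp only [b, hmq, if_false]
      rw [hb] at hm
      rcases zmod_cases i with ⟨hi, _⟩ | ⟨hi, _⟩ | ⟨hi, _⟩
      · cases d
        · have hx' : z ∈ inner P len (a + i.val) := by simpa [S, hi] using hm
          exact (I0 i.val hi _ hx').2.2.2.2.1 rfl
        · have : z ∈ (∅ : Set V) := by simpa [S, hi] using hm
          exact absurd this (Set.notMem_empty _)
      · have hnq : ¬ i.val < q := by omega
        cases d
        · exact z1 (by simpa [S, hi, hnq] using hm)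
        · exact z2 (by simpa [S, hi, hnq] using hm)
      · have hnq : ¬ i.val < q := by omega
        have hnq' : ¬ i.val = q := by omega
        cases d
        · exact z3 (by simpa [S, hi, hnq, hnq'] using hm)
        · have hx' : z ∈ E := by simpa [S, hi, hnq, hnq'] using hm
          rcases hx' with ⟨j, hj, he⟩ | hx
          · exact fj z (Or.inr (Or.inr (Or.inr rfl))) j (by omega) he
          · exact hx hz
  · intro i
    rcases zmod_cases i with ⟨hi, hi'⟩ | ⟨hi, hi'⟩ | ⟨hi, hi'⟩
    · have e1 : S i false = inner P len (a + i.val) := by simp [S, hi]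
      have e2 : b i = P (a + i.val) 0 := by simp [b, hi.le]
      have e3 : b (i + 1) = P (a + i.val + 1) 0 := by
        have : i.val + 1 ≤ q := by omega
        simp only [b, hi', this, if_true, add_assoc]
      rw [e1, e2, e3]
      exact H.reach_bead (by omega)
    · have e1 : S i false = T1 := by simp [S, hi]
      have e2 : b i = P (a + q) 0 := by simp [b, hi]
      have e3 : b (i + 1) = z := by simp [b, hi']
      rw [e1, e2, e3]; exact h1
    · have e1 : S i false = T3 := by simp [S, hi]
      have e2 : b i = z := by simp [b, hi]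
      have e3 : b (i + 1) = P a 0 := by simp [b, hi']
      rw [e1, e2, e3]; exact h3
  · intro i
    rcases zmod_cases i with ⟨hi, hi'⟩ | ⟨hi, hi'⟩ | ⟨hi, hi'⟩
    · have e2 : b i = P (a + i.val) 0 := by simp [b, hi.le]
      have e3 : b (i + 1) = P (a + i.val + 1) 0 := by
        have : i.val + 1 ≤ q := by omega
        simp only [b, hi', this, if_true, add_assoc]
      rw [e2, e3]
      exact Reach.arc (H.back _ (by omega))
    · have e1 : S i true = T2 := by simp [S, hi]
      have e2 : b i = P (a + q) 0 := by simp [b, hi]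
      have e3 : b (i + 1) = z := by simp [b, hi']
      rw [e1, e2, e3]; exact h2
    · have e1 : S i true = E := by simp [S, hi]
      have e2 : b i = z := by simp [b, hi]
      have e3 : b (i + 1) = P a 0 := by simp [b, hi']
      rw [e1, e2, e3]; exact hback

end Pool.Agent.Hhelper50.Mader
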