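import Pool.Agent.Hhelper50.Mader.Event2

/-!
# The recolouring procedure
-/

set_option autoImplicit false

namespace Pool.Agent.Hhelper50.Mader

variable {V : Type}
variable {A : V → V → Prop} {X : Set V} {h : V} {n : ℕ} {P : ℕ → ℕ → V} {len : ℕ → ℕ}

theorem transGen_split {R R' : V → V → Prop} {t : V}
    (hR : ∀ x y, R x y → x ≠ t → y ≠ t → R' x y) {x y : V} (hxy : Relation.TransGen R x y) :
    Relation.TransGen R' x y ∨ (Relation.ReflTransGen R x t ∧ Relation.ReflTransGen R t y) := by
  induction hxy with
  | single hab =>
    rename_i b
    by_cases h1 : x = t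
    · subst h1
      exact Or.inr ⟨Relation.ReflTransGen.refl, Relation.ReflTransGen.single hab⟩
    · by_cases h2 : b = t
      · subst h2
        exact Or.inr ⟨Relation.ReflTransGen.single hab, Relation.ReflTransGen.refl⟩
      · exact Or.inl (Relation.TransGen.single (hR _ _ hab h1 h2))
  | tail hab hbc ih =>
    rename_i b c
    by_cases h1 : b = t
    · subst h1
      exact Or.inr ⟨hab.to_reflTransGen, Relation.ReflTransGen.single hbc⟩
    · by_cases h2 : c = t
      · subst h2
        exact Or.inr ⟨(Relation.TransGen.tail hab hbc).to_reflTransGen,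
          Relation.ReflTransGen.refl⟩
      · rcases ih with ih | ⟨i1, i2⟩
        · exact Or.inl (Relation.TransGen.tail ih (hR _ _ hbc h1 h2))
        · exact Or.inr ⟨i1, i2.tail hbc⟩

theorem transGen_at {R R' : V → V → Prop} {t : V}
    (hR : ∀ x y, R x y → x ≠ t → y ≠ t → R' x y) (hno : ∀ x, ¬ Relation.TransGen R' x x)
    {x : V} (hx : Relation.TransGen R x x) : Relation.TransGen R t t := by
  by_cases hxt : x = t
  · subst hxt; exact hx
  · rcases transGen_split hR hx with h1 | ⟨h1, h2⟩
    · exact absurd h1 (hno x)
    · rcases Relation.reflTransGen_iff_eq_or_transGen.1 h1 with h3 | h3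
      · exact absurd h3.symm hxt
      · exact Relation.TransGen.trans_right h2 h3

theorem reach_of_transGen {R : V → V → Prop} {x y : V} (hxy : Relation.TransGen R x y) :
    Reach R Set.univ x y := by
  induction hxy with
  | single hab => exact Reach.arc hab
  | tail hab hbc ih => exact ih.trans (Set.mem_univ _) (Reach.arc hbc)

/-- Extending a ladder by a cycle through the last joint. -/
theorem Ladder.extend (H : Ladder A X h n P len) {L : ℕ} {w : ℕ → V} (hL : 2 ≤ L)
    (w0 : w 0 = P n 0) (wL : w L = P n 0) (hA : ∀ i < L, A (w i) (w (i + 1)))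
    (hX : ∀ i < L, w i ∈ X)
    (hs : ∀ i j, i < j → j ≤ L → ¬ (i = 0 ∧ j = L) → w i ≠ w j)
    (hno : ∀ k, 0 < k → k < L → ∀ i < n, ∀ s < len i, w k ≠ P i s) :
    Ladder A X h (n + 1)
      (fun i => if i = n then w else if i = n + 1 then (fun _ => w (L - 1)) else P i)
      (fun i => if i = n then L - 1 else if i = n + 1 then 1 else len i) := by
  have hno' : ∀ k, k < L → ∀ i < n, ∀ s < len i, w k ≠ P i s := by
    intro k hk i hi s hsl he
    rcases Nat.eq_zero_or_pos k with rfl | h0
    · rw [w0] at he
      have := H.inj n le_rfl 0 (H.len_pos n le_rfl) i hi.le s hsl he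
      omega
    · exact hno k h0 hk i hi s hsl he
  have hs' : ∀ i j, i < L → j < L → w i = w j → i = j := by
    intro i j hi hj he
    rcases lt_trichotomy i j with h | h | h
    · exact absurd he (hs i j h hj.le (by omega))
    · exact h
    · exact absurd he.symm (hs j i h hi.le (by omega))
  have e1 : n + 1 ≠ n := by omega
  refine ⟨?_, ?_, ?_, ?_, ?_, ?_, ?_, ?_⟩
  · intro i hi
    rcases lt_trichotomy i n with h | h | h
    · have h1 : i ≠ n := by omega
      have h2 : i ≠ n + 1 := by omega
      simp only [h1, h2, if_false]; exact H.len_pos i h.le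
    · simp only [h, if_true]; omega
    · have h1 : i ≠ n := by omega
      have h2 : i = n + 1 := by omega
      simp [h2]
  · simp
  · rcases Nat.eq_zero_or_pos n with h | h
    · subst h
      simp only [if_true]
      rw [w0]; exact H.start
    · have h1 : 0 ≠ n := by omega
      have h2 : 0 ≠ n + 1 := by omega
      simp only [h1, h2, if_false]; exact H.start
  · intro i hi
    rcases lt_or_eq_of_le (Nat.lt_succ_iff.1 hi) with h | h
    · have h1 : i ≠ n := by omega
      have h2 : i ≠ n + 1 := by omega
      have h4 : i + 1 ≠ n + 1 := by omega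
      simp only [h1, h2, if_false]
      by_cases h3 : i + 1 = n
      · simp only [h3, if_true]
        rw [H.link i h, h3, w0]
      · simp only [h3, h4, if_false]
        exact H.link i h
    · subst h
      simp [e1]
  · intro i hi s hsl
    rcases lt_or_eq_of_le (Nat.lt_succ_iff.1 hi) with h | h
    · have h1 : i ≠ n := by omega
      have h2 : i ≠ n + 1 := by omega
      simp only [h1, h2, if_false] at hsl ⊢
      exact H.arc i h s hsl
    · subst h
      simp only [if_true] at hsl ⊢
      exact hA s (by omega)
  · intro i hi
    rcases lt_or_eq_of_le (Nat.lt_succ_iff.1 hi) with h | h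
    · have h1 : i ≠ n := by omega
      have h2 : i ≠ n + 1 := by omega
      have h4 : i + 1 ≠ n + 1 := by omega
      simp only [h1, h2, if_false]
      by_cases h3 : i + 1 = n
      · simp only [h3, if_true]
        have := H.back i h
        rw [h3, ← w0] at this
        exact this
      · simp only [h3, h4, if_false]
        exact H.back i h
    · subst h
      simp only [e1, if_true, if_false]
      have := hA (L - 1) (by omega)
      have e : L - 1 + 1 = L := by omega
      rw [e, wL, ← w0] at this
      exact this
  · -- injectivity
    have key : ∀ i ≤ n + 1, ∀ s < (if i = n then L - 1 else if i = n + 1 then 1 else len i),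
        (i < n ∧ s < len i ∧
          (if i = n then w else if i = n + 1 then (fun _ => w (L - 1)) else P i) s = P i s) ∨
        (∃ k, k < L ∧ ((i = n ∧ k = s ∧ s < L - 1) ∨ (i = n + 1 ∧ s = 0 ∧ k = L - 1)) ∧
          (if i = n then w else if i = n + 1 then (fun _ => w (L - 1)) else P i) s = w k) := by
      intro i hi s hsl
      rcases lt_trichotomy i n with h | h | h
      · have h1 : i ≠ n := by omega
        have h2 : i ≠ n + 1 := by omega
        simp only [h1, h2, if_false] at hsl ⊢
        exact Or.inl ⟨h, hsl, by first | rfl | trivial⟩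
      · subst h
        simp only [if_true] at hsl ⊢
        exact Or.inr ⟨s, by omega, Or.inl ⟨by trivial, rfl, hsl⟩, rfl⟩
      · have h1 : i ≠ n := by omega
        have h2 : i = n + 1 := by omega
        subst h2
        simp only [e1, if_true, if_false] at hsl ⊢
        exact Or.inr ⟨L - 1, by omega, Or.inr ⟨by trivial, by omega, rfl⟩, rfl⟩
    intro i hi s hsl i' hi' s' hsl' he
    rcases key i hi s hsl with ⟨a1, a2, a3⟩ | ⟨k, a1, a2, a3⟩
    · rcases key i' hi' s' hsl' with ⟨b1, b2, b3⟩ | ⟨k', b1, b2, b3⟩
      · simp only [a3, b3] at he
        exact H.inj i a1.le s a2 i' b1.le s' b2 he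
      · simp only [a3, b3] at he
        exact absurd he.symm (hno' k' b1 i a1 s a2)
    · rcases key i' hi' s' hsl' with ⟨b1, b2, b3⟩ | ⟨k', b1, b2, b3⟩
      · simp only [a3, b3] at he
        exact absurd he (hno' k a1 i' b1 s' b2)
      · simp only [a3, b3] at he
        have := hs' k k' a1 b1 he
        omega
  · intro i hi s hsl
    rcases lt_trichotomy i n with h | h | h
    · have h1 : i ≠ n := by omega
      have h2 : i ≠ n + 1 := by omega
      simp only [h1, h2, if_false] at hsl ⊢
      exact H.mem i h.le s hsl
    · subst h
      simp only [if_true] at hsl ⊢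
      exact hX s (by omega)
    · have h1 : i ≠ n := by omega
      have h2 : i = n + 1 := by omega
      subst h2
      simp only [e1, if_true, if_false]
      exact hX _ (by omega)

theorem Ladder.card_lt [Finite V] (H : Ladder A X h n P len) : n < Nat.card V := by
  have hinj : Function.Injective (fun i : Fin (n + 1) => P i.val 0) := by
    intro i j hij
    exact Fin.ext (H.joint_inj (Nat.lt_succ_iff.1 i.2) (Nat.lt_succ_iff.1 j.2) hij)
  have := Nat.card_le_card_of_injective _ hinj
  simpa using this

/-- The recolouring procedure. -/
theorem place [Finite V] (hO : ∀ x ∈ X, x ≠ h → Reach A Xᶜ h x) {q : ℕ} (hq : 1 ≤ q)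
    (hloop : ∀ v, ¬ A v v) (hN : ¬ HasNeck A (q + 2)) :
    ∀ (d n : ℕ) (P : ℕ → ℕ → V) (len : ℕ → ℕ) (f : V → ZMod (q + 1)),
      Ladder A X h n P len → Nat.card V ≤ n + d →
      (∀ i ≤ n, ∀ s < len i, f (P i s) = (i : ZMod (q + 1))) →
      Good A X f {x | ∃ k ≤ n, x = P k 0} →
      ∃ f' : V → ZMod (q + 1), (∀ i ≤ n, ∀ s < len i, f' (P i s) = (i : ZMod (q + 1))) ∧
        Good A X f' {x | ∃ k < n, x = P k 0} ∧
        ∀ i < n, ∀ x ∈ X, A x (P i 0) → f' x = (i : ZMod (q + 1)) → f x = (i : ZMod (q + 1)) := by
  classical
  intro d
  induction d with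
  | zero =>
    intro n P len f H hc _ _
    have := H.card_lt
    omega
  | succ d ih =>
    intro n P len f H hc hf hG
    -- inner induction
    have inner : ∀ (m : ℕ) (f : V → ZMod (q + 1)),
        {x | x ∈ X ∧ A x (P n 0) ∧ f x = (n : ZMod (q + 1))}.ncard ≤ m →
        (∀ i ≤ n, ∀ s < len i, f (P i s) = (i : ZMod (q + 1))) →
        Good A X f {x | ∃ k ≤ n, x = P k 0} →
        ∃ f' : V → ZMod (q + 1), (∀ i ≤ n, ∀ s < len i, f' (P i s) = (i : ZMod (q + 1))) ∧
          Good A X f' {x | ∃ k < n, x = P k 0} ∧
          ∀ i < n, ∀ x ∈ X, A x (P i 0) → f' x = (i : ZMod (q + 1)) →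
            f x = (i : ZMod (q + 1)) := by
      intro m
      induction m with
      | zero =>
        intro f hm hf hG
        refine ⟨f, hf, ?_, fun _ _ _ _ _ hx => hx⟩
        intro x hx
        -- a monochromatic cycle through the last joint
        have ht : Relation.TransGen (Mono A X f {x | ∃ k < n, x = P k 0}) (P n 0) (P n 0) := by
          refine transGen_at (R' := Mono A X f {x | ∃ k ≤ n, x = P k 0}) ?_ hG hx
          rintro x y ⟨a1, a2, a3, a4, a5, a6⟩ b1 b2
          refine ⟨a1, a2, ?_, ?_, a5, a6⟩
          · rintro ⟨k, hk, e⟩
            rcases lt_or_eq_of_le hk with h | rfl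
            · exact a3 ⟨k, h, e⟩
            · exact b1 e
          · rintro ⟨k, hk, e⟩
            rcases lt_or_eq_of_le hk with h | rfl
            · exact a4 ⟨k, h, e⟩
            · exact b2 e
        obtain ⟨y, _, hy⟩ := Relation.TransGen.tail'_iff.1 ht
        have hfy : f y = (n : ZMod (q + 1)) := by
          rw [hy.2.2.2.2.2]; exact hf n le_rfl 0 (H.len_pos n le_rfl)
        have hmem : y ∈ {x | x ∈ X ∧ A x (P n 0) ∧ f x = (n : ZMod (q + 1))} :=
          ⟨hy.1, hy.2.2.2.2.1, hfy⟩
        have := (Set.ncard_pos (Set.toFinite _)).2 ⟨y, hmem⟩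
        omega
      | succ m ihm =>
        intro f hm hf hG
        by_cases hgood : Good A X f {x | ∃ k < n, x = P k 0}
        · exact ⟨f, hf, hgood, fun _ _ _ _ _ hx => hx⟩
        · have hgood' : ∃ x, Relation.TransGen (Mono A X f {x | ∃ k < n, x = P k 0}) x x := by
            by_contra hcon
            exact hgood (fun x hx => hcon ⟨x, hx⟩)
          obtain ⟨x, hx⟩ := hgood'
          have ht : Relation.TransGen (Mono A X f {x | ∃ k < n, x = P k 0}) (P n 0) (P n 0) := by
            refine transGen_at (R' := Mono A X f {x | ∃ k ≤ n, x = P k 0}) ?_ hG hx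
            rintro x y ⟨a1, a2, a3, a4, a5, a6⟩ b1 b2
            refine ⟨a1, a2, ?_, ?_, a5, a6⟩
            · rintro ⟨k, hk, e⟩
              rcases lt_or_eq_of_le hk with h | rfl
              · exact a3 ⟨k, h, e⟩
              · exact b1 e
            · rintro ⟨k, hk, e⟩
              rcases lt_or_eq_of_le hk with h | rfl
              · exact a4 ⟨k, h, e⟩
              · exact b2 e
          obtain ⟨L, w, ⟨hL, w0, wL, hw, _⟩, hs⟩ := (reach_of_transGen ht).exists_simple
          have hA : ∀ i < L, A (w i) (w (i + 1)) := fun i hi => (hw i hi).2.2.2.2.1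
          have hL2 : 2 ≤ L := by
            by_contra hcon
            have : L = 1 := by omega
            subst this
            have := hA 0 (by omega)
            rw [w0, zero_add, wL] at this
            exact hloop _ this
          have wX : ∀ i < L, w i ∈ X := fun i hi => (hw i hi).1
          have wf : ∀ k ≤ L, f (w k) = (n : ZMod (q + 1)) := by
            intro k
            induction k with
            | zero => intro _; rw [w0]; exact hf n le_rfl 0 (H.len_pos n le_rfl)
            | succ k ih => intro hk; rw [← (hw k (by omega)).2.2.2.2.2]; exact ih (by omega)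
          have hno : ∀ k, 0 < k → k < L → ∀ i < n, ∀ s < len i, w k ≠ P i s := by
            intro k h0 hk i hi s hsl he
            exact hN (H.event hO hq f hf hG hL w0 wL hw hs ⟨k, h0, hk, i, s, hi, hsl, he⟩)
          have H' := H.extend hL2 w0 wL hA wX hs hno
          set P' : ℕ → ℕ → V :=
            fun i => if i = n then w else if i = n + 1 then (fun _ => w (L - 1)) else P i with hP'
          set len' : ℕ → ℕ :=
            fun i => if i = n then L - 1 else if i = n + 1 then 1 else len i with hlen'
          have P'lt : ∀ i < n, P' i = P i := by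
            intro i hi
            have h1 : i ≠ n := by omega
            have h2 : i ≠ n + 1 := by omega
            simp only [hP', h1, h2, if_false]
          have len'lt : ∀ i < n, len' i = len i := by
            intro i hi
            have h1 : i ≠ n := by omega
            have h2 : i ≠ n + 1 := by omega
            simp only [hlen', h1, h2, if_false]
          have P'n : P' n = w := by simp [hP']
          have len'n : len' n = L - 1 := by simp [hlen']
          have P's : P' (n + 1) = fun _ => w (L - 1) := by simp [hP']
          have len's : len' (n + 1) = 1 := by simp [hlen']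
          have P'0 : ∀ i ≤ n, P' i 0 = P i 0 := by
            intro i hi
            rcases lt_or_eq_of_le hi with h | rfl
            · rw [P'lt i h]
            · rw [P'n, w0]
          -- the new colouring
          set v := w (L - 1) with hv
          have hvn : v ≠ P n 0 := by
            rw [← w0]
            exact fun he => hs 0 (L - 1) (by omega) (by omega) (by omega) he.symm
          have hvno : ∀ i < n, ∀ s < len i, v ≠ P i s := hno (L - 1) (by omega) (by omega)
          have hfv : f v = (n : ZMod (q + 1)) := wf (L - 1) (by omega)
          have hne : ((n + 1 : ℕ) : ZMod (q + 1)) ≠ (n : ZMod (q + 1)) := by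
            intro he
            rcases cast_eq_imp (q := q) (i := n) (n := n + 1) (by omega) he.symm with h | h <;>
              omega
          set f1 : V → ZMod (q + 1) := Function.update f v ((n + 1 : ℕ) : ZMod (q + 1)) with hf1
          have hf1v : f1 v = ((n + 1 : ℕ) : ZMod (q + 1)) := by simp [hf1]
          have hf1o : ∀ x, x ≠ v → f1 x = f x := fun x hx => Function.update_of_ne hx _ _
          have hcol : ∀ i ≤ n + 1, ∀ s < len' i, f1 (P' i s) = (i : ZMod (q + 1)) := by
            intro i hi s hsl
            rcases lt_trichotomy i n with h | h | h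
            · rw [len'lt i h] at hsl
              rw [P'lt i h, hf1o _ (fun he => hvno i h s hsl he.symm)]
              exact hf i h.le s hsl
            · subst h
              rw [len'n] at hsl
              rw [P'n, hf1o]
              · exact wf s (by omega)
              · exact hs s (L - 1) (by omega) (by omega) (by omega)
            · have h2 : i = n + 1 := by omega
              subst h2
              rw [P's]; exact hf1v
          have hgood1 : Good A X f1 {x | ∃ k ≤ n + 1, x = P' k 0} := by
            intro x hx
            refine hG x (Relation.TransGen.mono ?_ x x hx)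
            rintro a b ⟨a1, a2, a3, a4, a5, a6⟩
            have hav : a ≠ v := fun he => a3 ⟨n + 1, le_rfl, by rw [P's]; exact he⟩
            have hbv : b ≠ v := fun he => a4 ⟨n + 1, le_rfl, by rw [P's]; exact he⟩
            refine ⟨a1, a2, ?_, ?_, a5, ?_⟩
            · rintro ⟨k, hk, e⟩; exact a3 ⟨k, by omega, by rw [P'0 k hk]; exact e⟩
            · rintro ⟨k, hk, e⟩; exact a4 ⟨k, by omega, by rw [P'0 k hk]; exact e⟩
            · rw [← hf1o a hav, ← hf1o b hbv]; exact a6
          obtain ⟨f2, c2, g2, m2⟩ := ih (n + 1) P' len' f1 H' (by omega) hcol hgood1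
          have hf2 : ∀ i ≤ n, ∀ s < len i, f2 (P i s) = (i : ZMod (q + 1)) := by
            intro i hi s hsl
            rcases lt_or_eq_of_le hi with h | rfl
            · have := c2 i (by omega) s (by rw [len'lt i h]; exact hsl)
              rwa [P'lt i h] at this
            · rw [H.len_last] at hsl
              have hs0 : s = 0 := by omega
              subst hs0
              have := c2 i (by omega) 0 (by rw [len'n]; omega)
              rwa [P'n, w0] at this
          have hG2 : Good A X f2 {x | ∃ k ≤ n, x = P k 0} := by
            intro x hx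
            refine g2 x (Relation.TransGen.mono ?_ x x hx)
            rintro a b ⟨a1, a2, a3, a4, a5, a6⟩
            refine ⟨a1, a2, ?_, ?_, a5, a6⟩
            · rintro ⟨k, hk, e⟩; exact a3 ⟨k, by omega, by rw [← P'0 k (by omega)]; exact e⟩
            · rintro ⟨k, hk, e⟩; exact a4 ⟨k, by omega, by rw [← P'0 k (by omega)]; exact e⟩
          have hf2v : f2 v = ((n + 1 : ℕ) : ZMod (q + 1)) := by
            have := c2 (n + 1) le_rfl 0 (by rw [len's]; omega)
            rwa [P's] at this
          have hcard : {x | x ∈ X ∧ A x (P n 0) ∧ f2 x = (n : ZMod (q + 1))}.ncard <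
              {x | x ∈ X ∧ A x (P n 0) ∧ f x = (n : ZMod (q + 1))}.ncard := by
            refine Set.ncard_lt_ncard ?_ (Set.toFinite _)
            refine ⟨?_, ?_⟩
            · rintro x ⟨a1, a2, a3⟩
              refine ⟨a1, a2, ?_⟩
              have := m2 n (by omega) x a1 (by rw [P'0 n le_rfl]; exact a2) a3
              by_cases hxv : x = v
              · subst hxv; exact hfv
              · rwa [hf1o x hxv] at this
            · intro hsub
              have hmem : v ∈ {x | x ∈ X ∧ A x (P n 0) ∧ f x = (n : ZMod (q + 1))} := by
                refine ⟨wX _ (by omega), ?_, hfv⟩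
                have := hA (L - 1) (by omega)
                have e : L - 1 + 1 = L := by omega
                rwa [e, wL] at this
              have := (hsub hmem).2.2
              rw [hf2v] at this
              exact hne this
          obtain ⟨f', c', g', m'⟩ := ihm f2 (by omega) hf2 hG2
          refine ⟨f', c', g', ?_⟩
          intro i hi x hxX hxA hx'
          have h2 := m' i hi x hxX hxA hx'
          have h1 := m2 i (by omega) x hxX (by rw [P'0 i hi.le]; exact hxA) h2
          by_cases hxv : x = v
          · -- an arc from the new joint to an old one closes a necklace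
            exfalso
            rw [hxv, hf1v] at h1
            have hi' : i + (q + 1) ≤ n + 1 := by
              rcases cast_eq_imp (q := q) (i := i) (n := n + 1) (by omega) h1.symm with h | h <;>
                omega
            have hR : Reach A ∅ (P' (n + 1) 0) (P' i 0) := by
              rw [P's, P'0 i hi.le]
              rw [hxv] at hxA
              exact Reach.arc hxA
            refine hN (H'.ret hO (q := q) (a := i) (i := n + 1) (s := 0) le_rfl
              (H'.len_pos _ le_rfl) hq (Or.inl (by omega)) ∅ hR (Set.empty_subset _) ?_ ?_)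
            · intro x hx; exact absurd hx (Set.notMem_empty _)
            · intro x hx; exact absurd hx (Set.notMem_empty _)
          · rwa [hf1o x hxv] at h1
    exact inner _ f le_rfl hf hG

end Pool.Agent.Hhelper50.Mader
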